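import Pool.Agent.H54.PR.D1

/-!
ROW Sb (project MP_78d38b_PP, block R2, about 130 lines): finite supports, and sums over the places of `L`
as sums over the places of `K`. Use `H38RT.fin_bad` (finitely many places with `v.valuation F x ≠ 1`, `Pool/Agent/H38/RT/Rk.lean`), `eo_sc`, and the STATEMENTS `oddP_dn`, `fin_above` of
`H76/PP/Ta`.

PROOF. (1) `tp_fin`: if `v.valuation F x = 1` and `v.valuation F y = 1` then `eo v (sc x) = eo v (sc y) = 0` (`eo_sc`, `ord = 0`) and `tp v (sc x) (sc y) = 0` (unfold `tp`); so the support is contained in the union of two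
finite sets (`fin_bad`).
(2) `sum_dn`: let `g w = if OddP w then tp w (sc u) (sc (algebraMap c)) else 0`, its support is finite. `∑ᶠ w, g w = ∑ᶠ v, ∑ᶠ w : {w // dn K w = v}, g w.1`: with the finite set `S` = the support (`Set.Finite.toFinset`) and `S' = S.image (dn K)`:
`∑ᶠ w, g w = ∑ w ∈ S, g w` (`finsum_eq_sum_of_support_subset`) `= ∑ v ∈ S', ∑ w ∈ S with dn K w = v, g w` (`Finset.sum_fiberwise_of_maps_to`), and `∑ w ∈ S with dn K w = v, g w = ∑ᶠ w : {w // dn K w = v}, g w.1` (e.g. `finsum_subtype_eq_finsum_cond`/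
`finsum_mem_eq_finite_toFinset_sum`, or `finsum_eq_sum_of_support_subset` with the subtype finset), and for `v ∉ S'` the inner sum is zero. The inner sum: if `v` is odd, all `w` above are odd (`oddP_dn`) and it is
`tp v (sc (norm u)) (sc c)` by `hP`; if `v` is not odd, no `w` above `v` is odd and it is zero.
-/

set_option autoImplicit false
set_option linter.unusedSectionVars false
open scoped Classical

open WithZero NumberField IsDedekindDomain H38RT H76PP
open H38T1 (SC sc scu rep eo la si Pri OddP tp unif)

namespace H54PR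

private theorem Sb_fiber {α β M : Type*} [AddCommMonoid M] (f : α → β) (g : α → M)
    (hg : (Function.support g).Finite) :
    ∑ᶠ a, g a = ∑ᶠ b, ∑ᶠ a : {a // f a = b}, g a.1 := by
  have h1 : ∀ b, ∑ᶠ a : {a // f a = b}, g a.1 = ∑ a ∈ hg.toFinset with f a = b, g a := by
    intro b
    exact (finsum_set_coe_eq_finsum_mem (f := g) {a | f a = b}).trans
      (finsum_mem_eq_sum_filter g {a | f a = b} hg)
  rw [finsum_congr h1, finsum_eq_sum g hg]
  rw [finsum_eq_sum_of_support_subset (s := hg.toFinset.image f)
    (fun b => ∑ a ∈ hg.toFinset with f a = b, g a)]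
  · exact (Finset.sum_fiberwise_of_maps_to
      (fun a ha => Finset.mem_image_of_mem f ha) g).symm
  · intro b hb
    by_contra hn
    apply hb
    refine Finset.sum_eq_zero fun a ha => ?_
    rw [Finset.mem_filter] at ha
    exfalso
    apply hn
    rw [Finset.mem_coe, ← ha.2]
    exact Finset.mem_image_of_mem f ha.1

theorem tp_fin {F : Type} [Field F] [NumberField F] {x y : F} (hx : x ≠ 0) (hy : y ≠ 0) :
    (Function.support (fun v : HeightOneSpectrum (𝓞 F) =>
      if OddP v then tp v (sc x) (sc y) else 0)).Finite := by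
  refine ((fin_bad hx).union (fin_bad hy)).subset ?_
  intro v hv
  by_contra h
  rw [Set.mem_union, not_or] at h
  have h1 : v.valuation F x = 1 := by
    by_contra h'
    exact h.1 h'
  have h2 : v.valuation F y = 1 := by
    by_contra h'
    exact h.2 h'
  apply hv
  have e1 : eo v (sc x) = 0 := by
    rw [H38T1.eo_sc hx]
    unfold ord
    rw [h1, log_one, neg_zero, Int.cast_zero]
  have e2 : eo v (sc y) = 0 := by
    rw [H38T1.eo_sc hy]
    unfold ord
    rw [h2, log_one, neg_zero, Int.cast_zero]
  have e3 : tp v (sc x) (sc y) = 0 := by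
    unfold tp
    rw [e1, e2]
    ring
  show (if OddP v then tp v (sc x) (sc y) else 0) = 0
  rw [e3, ite_self]

variable {K L : Type} [Field K] [NumberField K] [Field L] [NumberField L] [Algebra K L]

theorem sum_dn (hP : ProjT K L) {u : L} (hu : u ≠ 0) {c : K} (hc : c ≠ 0) :
    ∑ᶠ w : HeightOneSpectrum (𝓞 L),
      (if OddP w then tp w (sc u) (sc (algebraMap K L c)) else 0) =
    ∑ᶠ v : HeightOneSpectrum (𝓞 K),
      (if OddP v then tp v (sc (Algebra.norm K u)) (sc c) else 0) := by
  have hc' : algebraMap K L c ≠ 0 := fun h => hc ((algebraMap K L).injective (by rw [h, map_zero]))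
  rw [Sb_fiber (dn K) _ (tp_fin hu hc')]
  refine finsum_congr fun v => ?_
  by_cases hv : OddP v
  · rw [if_pos hv, ← hP v hv u hu c hc]
    refine finsum_congr fun w => ?_
    have hw : OddP w.1 := by
      rw [oddP_dn (K := K), w.2]
      exact hv
    rw [if_pos hw]
  · rw [if_neg hv]
    have h0 : ∀ w : {w : HeightOneSpectrum (𝓞 L) // dn K w = v},
        (if OddP w.1 then tp w.1 (sc u) (sc (algebraMap K L c)) else 0) = 0 := by
      intro w
      have hw : ¬ OddP w.1 := by
        rw [oddP_dn (K := K), w.2]
        exact hv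
      rw [if_neg hw]
    rw [finsum_congr h0, finsum_zero]

end H54PR
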