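import Pool.Agent.H54.PR.D1

/-!
ROW Vb (project MP_78d38b_PP, block R2, about 170 lines): squares modulo eight from approximate
solutions. Use the lemmas of D1 and the STATEMENTS of `H76/PP/Ta` (`ord_dn`, `val_exp_le`).

PROOF. `two_v`: `m = 1 / y`: `v (f y^(-2) - 1) = v (f - y^2) / (v y)^2 ≤ exp (-M) exp (2 R) ≤ v 8` for `M ≥ 2 R + ord_v 8`, where `v 8 = exp (-ord_v 8)`
(`8 ≠ 0`, `V_eq`, `ord` of `H38RT`) (`M = 2 R + (ord 8).toNat`).
`two_w`: `v = dn K w`, `e > 0` from `ord_dn w`: for `x ≠ 0` in `K`: `w x = exp (-e ord_v x)`; so `v x ≤ exp R` implies `w x ≤ exp (e R)` and `exp (-k) ≤ v x` implies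
`exp (-e k) ≤ w x`. `w θ ≤ 1` since `θ` is integral over `𝓞 K` (`h.root`, `A, B : 𝓞 K`; if `w θ > 1` then `w (θ^3) > w (A θ + B)`, as `w A, w B ≤ 1`).
Let `δ = ev θ d ≠ 0`, `R₁ : ℕ` with `exp (-R₁) ≤ w δ * exp (-4 e R)`, and `M = R₁ + (ord_w 8).toNat + 2 R + 1`. Given `x, y, z`: `F = ff A B x`: `v (F - y^2) ≤ exp (-M) < exp (-2R) ≤ v (y^2)`,
so `v F = v (y^2) ≥ exp (-2 R)`, `w F ≥ exp (-2 e R)`. `(x - θ) * Q = F`, `Q = θ^2 + x θ + x^2 + A` (`sub_mul_quad`), `w Q ≤ exp (2 e R)` (`w x ≤ exp (e R)`), so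
`w (x - θ) ≥ exp (-4 e R)` and `P = δ (x - θ)` has `w P ≥ exp (-R₁)`. `Z = ev θ z`. `P - Z^2 = ev θ (E)` with `E j = m3 A B d ![x,-1,0] j - m3 A B z z j`
(`ev_m3`, `ev_sub`, `ev` is additive), and `w (ev θ E) ≤ max_j w (E j) ≤ exp (-M)` (`val_exp_le`, `w θ ≤ 1`). As `exp (-M) < exp (-R₁) ≤ w P`: `w (Z^2) = w P`, so `Z ≠ 0`; `m = 1 / Z`:
`w (P / Z^2 - 1) = w (P - Z^2) / w (Z^2) ≤ exp (-M + R₁) ≤ exp (- ord_w 8) = w 8`.
-/

set_option autoImplicit false
set_option linter.unusedSectionVars false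
open scoped Classical

open WithZero NumberField IsDedekindDomain H38RT H76PP

namespace H54PR

variable {K L : Type} [Field K] [NumberField K] [Field L] [NumberField L] [Algebra K L]

private theorem Vb_le {F : Type} [Field F] [NumberField F] (v : HeightOneSpectrum (𝓞 F)) :
    exp (-((ord (v.valuation F) 8).toNat : ℤ)) ≤ v.valuation F 8 := by
  have h8 : (8 : F) ≠ 0 := by norm_num
  have h1 : v.valuation F 8 = exp (- ord (v.valuation F) 8) := V_eq h8
  conv_rhs => rw [h1]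
  rw [exp_le_exp]
  have := Int.self_le_toNat (ord (v.valuation F) 8)
  omega

private theorem Vb_ne {F : Type} [Field F] [NumberField F] {v : HeightOneSpectrum (𝓞 F)} {y : F}
    {k : ℤ} (h : exp k ≤ v.valuation F y) : y ≠ 0 := by
  rintro rfl
  rw [map_zero] at h
  exact absurd h (not_le.2 exp_pos)

theorem two_v (v : HeightOneSpectrum (𝓞 K)) (R : ℕ) : ∃ M : ℕ, ∀ F y : K,
    exp (-(R : ℤ)) ≤ v.valuation K y → v.valuation K (F - y ^ 2) ≤ exp (-(M : ℤ)) →
      ∃ m : K, m ≠ 0 ∧ v.valuation K (F * m ^ 2 - 1) ≤ v.valuation K 8 := by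
  refine ⟨2 * R + (ord (v.valuation K) 8).toNat, fun F y hy hF => ?_⟩
  have hy0 : y ≠ 0 := Vb_ne hy
  refine ⟨y⁻¹, inv_ne_zero hy0, ?_⟩
  have e1 : F * y⁻¹ ^ 2 - 1 = (F - y ^ 2) / y ^ 2 := by
    field_simp
  have hy2 : 0 < v.valuation K (y ^ 2) := by
    rw [Valuation.pos_iff]
    exact pow_ne_zero 2 hy0
  rw [e1, map_div₀, div_le_iff₀ hy2]
  refine hF.trans ?_
  have h1 : exp (-(R : ℤ)) * exp (-(R : ℤ)) ≤ v.valuation K (y ^ 2) := by
    rw [map_pow, sq]
    exact mul_le_mul' hy hy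
  refine le_trans (le_of_eq ?_) (mul_le_mul' (Vb_le v) h1)
  rw [← exp_add, ← exp_add]
  congr 1
  push_cast
  ring

private theorem Vb_up {w : HeightOneSpectrum (𝓞 L)} {e : ℕ} (he : ∀ x : K, x ≠ 0 →
    ord (w.valuation L) (algebraMap K L x) = e * ord ((dn K w).valuation K) x) {x : K} {k : ℤ}
    (hx : (dn K w).valuation K x ≤ exp k) : w.valuation L (algebraMap K L x) ≤ exp (e * k) := by
  by_cases h0 : x = 0
  · rw [h0, map_zero, map_zero]
    exact zero_le
  have h0' : algebraMap K L x ≠ 0 := (map_ne_zero _).2 h0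
  rw [V_eq h0, exp_le_exp] at hx
  rw [V_eq h0', he x h0, exp_le_exp]
  have := mul_le_mul_of_nonneg_left hx (Int.natCast_nonneg e)
  linarith

private theorem Vb_low {w : HeightOneSpectrum (𝓞 L)} {e : ℕ} (he : ∀ x : K, x ≠ 0 →
    ord (w.valuation L) (algebraMap K L x) = e * ord ((dn K w).valuation K) x) {x : K} {k : ℤ}
    (hx : exp k ≤ (dn K w).valuation K x) : exp (e * k) ≤ w.valuation L (algebraMap K L x) := by
  have h0 : x ≠ 0 := Vb_ne hx
  have h0' : algebraMap K L x ≠ 0 := (map_ne_zero _).2 h0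
  rw [V_eq h0, exp_le_exp] at hx
  rw [V_eq h0', he x h0, exp_le_exp]
  have := mul_le_mul_of_nonneg_left hx (Int.natCast_nonneg e)
  linarith

private theorem Vb_theta {A B : 𝓞 K} {θ : L} (h : Cub K L (A : K) (B : K) θ)
    (w : HeightOneSpectrum (𝓞 L)) : w.valuation L θ ≤ 1 := by
  by_contra hn
  rw [not_le] at hn
  have hA : w.valuation L (algebraMap K L (A : K)) ≤ 1 := val_le ((dn K w).valuation_le_one A)
  have hB : w.valuation L (algebraMap K L (B : K)) ≤ 1 := val_le ((dn K w).valuation_le_one B)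
  have e1 : θ ^ 3 = -(algebraMap K L (A : K) * θ + algebraMap K L (B : K)) := by
    linear_combination h.root
  have e2 : w.valuation L (θ ^ 3) ≤ w.valuation L θ := by
    rw [e1, Valuation.map_neg]
    refine (Valuation.map_add _ _ _).trans (max_le ?_ (hB.trans hn.le))
    rw [map_mul]
    calc _ ≤ 1 * w.valuation L θ := mul_le_mul' hA le_rfl
      _ = _ := one_mul _
  rw [map_pow] at e2
  have e3 : w.valuation L θ < w.valuation L θ ^ 3 := by
    have h1 : w.valuation L θ ^ 1 < w.valuation L θ ^ 3 := pow_lt_pow_right₀ hn (by norm_num)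
    rwa [pow_one] at h1
  exact absurd e2 (not_le.2 e3)

private theorem Vb_ev {w : HeightOneSpectrum (𝓞 L)} {θ : L} (hθ : w.valuation L θ ≤ 1)
    {E : Fin 3 → K} {M : ℕ} (hE : ∀ j, (dn K w).valuation K (E j) ≤ exp (-(M : ℤ))) :
    w.valuation L (ev θ E) ≤ exp (-(M : ℤ)) := by
  have h1 : ∀ j, w.valuation L (algebraMap K L (E j)) ≤ exp (-(M : ℤ)) := fun j =>
    val_exp_le (Int.natCast_nonneg M) (hE j)
  unfold ev
  refine (Valuation.map_add _ _ _).trans (max_le ((Valuation.map_add _ _ _).trans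
    (max_le (h1 0) ?_)) ?_)
  · rw [map_mul]
    calc _ ≤ exp (-(M : ℤ)) * 1 := mul_le_mul' (h1 1) hθ
      _ = _ := mul_one _
  · rw [map_mul, map_pow]
    calc _ ≤ exp (-(M : ℤ)) * 1 := mul_le_mul' (h1 2) (pow_le_one₀ zero_le hθ)
      _ = _ := mul_one _

theorem two_w {A B : 𝓞 K} {θ : L} (h : Cub K L (A : K) (B : K) θ) {d : Fin 3 → K}
    (hd : ev θ d ≠ 0) (w : HeightOneSpectrum (𝓞 L)) (R : ℕ) :
    ∃ M : ℕ, ∀ (x y : K) (z : Fin 3 → K), (dn K w).valuation K x ≤ exp (R : ℤ) →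
      exp (-(R : ℤ)) ≤ (dn K w).valuation K y →
      (dn K w).valuation K (ff (A : K) (B : K) x - y ^ 2) ≤ exp (-(M : ℤ)) →
      (∀ j, (dn K w).valuation K (m3 (A : K) (B : K) d ![x, -1, 0] j -
        m3 (A : K) (B : K) z z j) ≤ exp (-(M : ℤ))) →
      ∃ m : L, m ≠ 0 ∧
        w.valuation L (ev θ d * (algebraMap K L x - θ) * m ^ 2 - 1) ≤ w.valuation L 8 := by
  obtain ⟨e, -, he⟩ := ord_dn (K := K) w
  have hθ := Vb_theta h w
  obtain ⟨R₁, hR₁⟩ : ∃ R₁ : ℕ, exp (-(R₁ : ℤ)) ≤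
      w.valuation L (ev θ d) * exp (-(4 * e * R : ℤ)) := by
    refine ⟨(ord (w.valuation L) (ev θ d) + 4 * e * R).toNat, ?_⟩
    rw [V_eq hd, ← exp_add, exp_le_exp]
    have := Int.self_le_toNat (ord (w.valuation L) (ev θ d) + 4 * e * R)
    linarith
  obtain ⟨M, hM⟩ : ∃ M : ℕ, M = R₁ + (ord (w.valuation L) 8).toNat + 2 * R + 1 := ⟨_, rfl⟩
  refine ⟨M, fun x y z hx hy hF hE => ?_⟩
  have hy0 : y ≠ 0 := Vb_ne hy
  -- the value of `f x`
  have hy2 : exp (-(2 * R : ℤ)) ≤ (dn K w).valuation K (y ^ 2) := by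
    have h1 : exp (-(R : ℤ)) * exp (-(R : ℤ)) ≤ (dn K w).valuation K (y ^ 2) := by
      rw [map_pow, sq]
      exact mul_le_mul' hy hy
    refine le_trans (le_of_eq ?_) h1
    rw [← exp_add]
    congr 1
    ring
  have hFv : (dn K w).valuation K (ff (A : K) (B : K) x) = (dn K w).valuation K (y ^ 2) := by
    refine Valuation.map_eq_of_sub_lt _ (lt_of_le_of_lt hF (lt_of_lt_of_le ?_ hy2))
    rw [exp_lt_exp, hM]
    push_cast
    omega
  have hFw : exp (e * (-(2 * R : ℤ))) ≤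
      w.valuation L (algebraMap K L (ff (A : K) (B : K) x)) := by
    refine Vb_low he ?_
    rw [hFv]
    exact hy2
  have hxw : w.valuation L (algebraMap K L x) ≤ exp (e * (R : ℤ)) := Vb_up he hx
  have h1e : (1 : WithZero (Multiplicative ℤ)) ≤ exp (e * (R : ℤ)) := by
    rw [← exp_zero, exp_le_exp]
    positivity
  have hxx : exp (e * (R : ℤ)) * exp (e * (R : ℤ)) = exp (e * (2 * R : ℤ)) := by
    rw [← exp_add]
    congr 1
    ring
  have h1ee : (1 : WithZero (Multiplicative ℤ)) ≤ exp (e * (2 * R : ℤ)) := by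
    rw [← exp_zero, exp_le_exp]
    positivity
  have hA : w.valuation L (algebraMap K L (A : K)) ≤ 1 := val_le ((dn K w).valuation_le_one A)
  have hQ : w.valuation L (θ ^ 2 + algebraMap K L x * θ + algebraMap K L x ^ 2 +
      algebraMap K L (A : K)) ≤ exp (e * (2 * R : ℤ)) := by
    refine (Valuation.map_add _ _ _).trans (max_le ((Valuation.map_add _ _ _).trans
      (max_le ((Valuation.map_add _ _ _).trans (max_le ?_ ?_)) ?_)) (hA.trans h1ee))
    · rw [map_pow]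
      exact (pow_le_one₀ zero_le hθ).trans h1ee
    · rw [map_mul, ← hxx]
      exact mul_le_mul' hxw (hθ.trans h1e)
    · rw [map_pow, sq, ← hxx]
      exact mul_le_mul' hxw hxw
  have hsub : exp (-(4 * e * R : ℤ)) ≤ w.valuation L (algebraMap K L x - θ) := by
    have h1 := sub_mul_quad h.root x
    rw [← h1, map_mul] at hFw
    have h2 := hFw.trans (mul_le_mul' (le_refl (w.valuation L (algebraMap K L x - θ))) hQ)
    have h3 : exp (-(4 * e * R : ℤ)) * exp (e * (2 * R : ℤ)) = exp (e * (-(2 * R : ℤ))) := by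
      rw [← exp_add]
      congr 1
      ring
    rw [← h3] at h2
    exact le_of_mul_le_mul_right h2 exp_pos
  set P := ev θ d * (algebraMap K L x - θ) with hP
  have hPw : exp (-(R₁ : ℤ)) ≤ w.valuation L P := by
    rw [hP, map_mul]
    exact hR₁.trans (mul_le_mul' le_rfl hsub)
  have hPZ : P - ev θ z ^ 2 = ev θ (fun j => m3 (A : K) (B : K) d ![x, -1, 0] j -
        m3 (A : K) (B : K) z z j) := by
    have h1 : P = ev θ (m3 (A : K) (B : K) d ![x, -1, 0]) := by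
      rw [ev_m3 h.root, ev_sub, hP]
    have h2 : ev θ z ^ 2 = ev θ (m3 (A : K) (B : K) z z) := by
      rw [ev_m3 h.root, sq]
    rw [h1, h2]
    unfold ev
    simp only [map_sub]
    ring
  have hsm : w.valuation L (P - ev θ z ^ 2) ≤ exp (-(M : ℤ)) := by
    rw [hPZ]
    exact Vb_ev hθ hE
  have hZ : w.valuation L (ev θ z ^ 2) = w.valuation L P := by
    refine Valuation.map_eq_of_sub_lt _ ?_
    rw [Valuation.map_sub_swap]
    refine lt_of_le_of_lt hsm (lt_of_lt_of_le ?_ hPw)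
    rw [exp_lt_exp, hM]
    push_cast
    omega
  have hP0 : P ≠ 0 := Vb_ne hPw
  have hZ0 : ev θ z ≠ 0 := by
    intro h0
    rw [h0, zero_pow two_ne_zero, map_zero] at hZ
    exact hP0 ((Valuation.zero_iff _).1 hZ.symm)
  refine ⟨(ev θ z)⁻¹, inv_ne_zero hZ0, ?_⟩
  have e1 : P * (ev θ z)⁻¹ ^ 2 - 1 = (P - ev θ z ^ 2) / ev θ z ^ 2 := by
    field_simp
  have hz2 : 0 < w.valuation L (ev θ z ^ 2) := by
    rw [Valuation.pos_iff]
    exact pow_ne_zero 2 hZ0
  rw [e1, map_div₀, div_le_iff₀ hz2, hZ]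
  refine hsm.trans ?_
  refine le_trans ?_ (mul_le_mul' (Vb_le w) hPw)
  rw [← exp_add, exp_le_exp, hM]
  push_cast
  omega

end H54PR
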