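import Pool.Agent.H54.PR.Va
import Pool.Agent.H54.PR.Vb

/-!
ROW Vc (project MP_78d38b_PP, block R2, about 120 lines): the neighbourhood at a place above two. Use the
STATEMENTS `LC_near` (Va), `two_v`, `two_w` (Vb), `fin_above` (H76/PP/Ta).

PROOF. `R` from `LC_near` for `v`. The set `{w | dn K w = v}` is finite (`fin_above`); `M_w` from `two_w h hd w R` for each such `w`, `M_v` from `two_v v R`; `M` the maximum of all
(monotone: a bound `≤ exp (-M)` implies `≤ exp (-M_w)`). `LC_near` gives `x₀, y, z` for this `M`. Choose `C : ℕ` such that `exp (-C) * v (d j) ≤ exp (-M)` for `j = 0, 1, 2` and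
`exp (-C) * exp (2 R) ≤ exp (-M)`, `exp (-C) * v A ≤ exp (-M)` (`v A ≤ 1`), `C ≥ 0`; `N = C`. Let `v (x - x₀) ≤ exp (-N)`. Then `v x ≤ exp R`,
`ff A B x - ff A B x₀ = (x - x₀) (x^2 + x x₀ + x₀^2 + A)` has valuation `≤ exp (-M)`, so `v (ff A B x - y^2) ≤ exp (-M)`; and
`m3 A B d ![x,-1,0] j - m3 A B d ![x₀,-1,0] j = d j * (x - x₀)` (by `fin_cases j`, `unfold m3`, `simp`, `ring`), so the coordinates stay `≤ exp (-M)`. Apply `two_v`, `two_w` to `x, y, z`.
-/

set_option autoImplicit false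
set_option linter.unusedSectionVars false
open scoped Classical

open WithZero NumberField IsDedekindDomain H38RT H76PP

namespace H54PR

variable {K L : Type} [Field K] [NumberField K] [Field L] [NumberField L] [Algebra K L]

private lemma Vc_le {a b : ℤ} (h : a ≤ b) :
    (exp a : WithZero (Multiplicative ℤ)) ≤ exp b := WithZero.exp_le_exp.2 h

private lemma Vc_bd (v : HeightOneSpectrum (𝓞 K)) (t : K) :
    ∃ D : ℕ, v.valuation K t ≤ exp (D : ℤ) := by
  by_cases h : v.valuation K t = 0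
  · exact ⟨0, by rw [h]; exact zero_le⟩
  · refine ⟨(WithZero.log (v.valuation K t)).toNat, ?_⟩
    rw [← WithZero.exp_log h]
    rw [WithZero.log_exp]
    exact Vc_le (Int.self_le_toNat _)

private lemma Vc_add {v : HeightOneSpectrum (𝓞 K)} {s t : K} {n : ℤ}
    (hs : v.valuation K s ≤ exp n) (ht : v.valuation K t ≤ exp n) :
    v.valuation K (s + t) ≤ exp n :=
  (Valuation.map_add _ _ _).trans (max_le hs ht)

private lemma Vc_mul {v : HeightOneSpectrum (𝓞 K)} {s t : K} {a b n : ℤ}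
    (hs : v.valuation K s ≤ exp a) (ht : v.valuation K t ≤ exp b) (h : a + b ≤ n) :
    v.valuation K (s * t) ≤ exp n := by
  rw [map_mul]
  refine (mul_le_mul' hs ht).trans ?_
  rw [← WithZero.exp_add]
  exact Vc_le h

theorem LC_two {A B : 𝓞 K} {θ : L} (h : Cub K L (A : K) (B : K) θ) {d : Fin 3 → K}
    (hd : ev θ d ≠ 0) (v : HeightOneSpectrum (𝓞 K))
    (hLC : LC (algebraMap K (v.adicCompletion K)) (A : K) (B : K) d) :
    ∃ (x₀ : K) (N : ℕ), ∀ x : K, v.valuation K (x - x₀) ≤ exp (-(N : ℤ)) →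
      (∃ m : K, m ≠ 0 ∧
        v.valuation K (ff (A : K) (B : K) x * m ^ 2 - 1) ≤ v.valuation K 8) ∧
      ∀ w : HeightOneSpectrum (𝓞 L), dn K w = v → ∃ m : L, m ≠ 0 ∧
        w.valuation L (ev θ d * (algebraMap K L x - θ) * m ^ 2 - 1) ≤ w.valuation L 8 := by
  obtain ⟨R, hR⟩ := LC_near v hLC
  obtain ⟨Mv, hMv⟩ := two_v v R
  choose Mw hMw using fun w : HeightOneSpectrum (𝓞 L) => two_w h hd w R
  set S : Finset (HeightOneSpectrum (𝓞 L)) := (fin_above (L := L) v).toFinset with hS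
  set M : ℕ := S.sup Mw + Mv with hM
  obtain ⟨x₀, y, z, hx₀, hy, hF, hm⟩ := hR M
  obtain ⟨D0, hD0⟩ := Vc_bd v (d 0)
  obtain ⟨D1, hD1⟩ := Vc_bd v (d 1)
  obtain ⟨D2, hD2⟩ := Vc_bd v (d 2)
  refine ⟨x₀, M + (D0 + D1 + D2) + 2 * R, ?_⟩
  intro x hx
  have hA : v.valuation K (A : K) ≤ exp (0 : ℤ) := by
    rw [WithZero.exp_zero]
    exact v.valuation_le_one A
  have hxR : v.valuation K x ≤ exp (R : ℤ) := by
    have h1 : x = (x - x₀) + x₀ := by ring
    rw [h1]
    exact Vc_add (hx.trans (Vc_le (by push_cast; omega))) hx₀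
  have hFx : v.valuation K (ff (A : K) (B : K) x - y ^ 2) ≤ exp (-(M : ℤ)) := by
    have h1 : ff (A : K) (B : K) x - y ^ 2 =
        (x - x₀) * (x * x + x * x₀ + x₀ * x₀ + A) + (ff (A : K) (B : K) x₀ - y ^ 2) := by
      unfold ff
      ring
    rw [h1]
    refine Vc_add (Vc_mul hx (b := 2 * (R : ℤ)) ?_ (by push_cast; omega)) hF
    refine Vc_add (Vc_add (Vc_add ?_ ?_) ?_) ?_
    · exact Vc_mul hxR hxR (by omega)
    · exact Vc_mul hxR hx₀ (by omega)
    · exact Vc_mul hx₀ hx₀ (by omega)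
    · exact hA.trans (Vc_le (by omega))
  have hmx : ∀ j, v.valuation K (m3 (A : K) (B : K) d ![x, -1, 0] j -
      m3 (A : K) (B : K) z z j) ≤ exp (-(M : ℤ)) := by
    intro j
    have h1 : m3 (A : K) (B : K) d ![x, -1, 0] j - m3 (A : K) (B : K) z z j =
        d j * (x - x₀) + (m3 (A : K) (B : K) d ![x₀, -1, 0] j - m3 (A : K) (B : K) z z j) := by
      have h2 : m3 (A : K) (B : K) d ![x, -1, 0] j - m3 (A : K) (B : K) d ![x₀, -1, 0] j =
          d j * (x - x₀) := by
        unfold m3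
        fin_cases j
        · simp
          ring
        · simp
          ring
        · simp
          ring
      linear_combination h2
    rw [h1]
    refine Vc_add ?_ (hm j)
    have hDj : v.valuation K (d j) ≤ exp ((D0 + D1 + D2 : ℕ) : ℤ) := by
      fin_cases j
      · exact hD0.trans (Vc_le (by push_cast; omega))
      · exact hD1.trans (Vc_le (by push_cast; omega))
      · exact hD2.trans (Vc_le (by push_cast; omega))
    exact Vc_mul hDj hx (by push_cast; omega)
  refine ⟨hMv _ y hy (hFx.trans (Vc_le (by omega))), ?_⟩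
  intro w hw
  have hwM : Mw w ≤ M := by
    have h1 : w ∈ S := by
      rw [hS, Set.Finite.mem_toFinset]
      exact hw
    have h2 := Finset.le_sup (f := Mw) h1
    omega
  have h3 := hMw w x y z
  rw [hw] at h3
  exact h3 hxR hy (hFx.trans (Vc_le (by omega))) (fun j => (hmx j).trans (Vc_le (by omega)))

end H54PR
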