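import Pool.Agent.H54.PR.D1

/-!
ROW Vd (project MP_78d38b_PP, block R2, about 120 lines): the neighbourhood at a real place.

PROOF. `hLC` gives `r, y : ℝ`, `z : Fin 3 → ℝ`, `y ≠ 0`, `y^2 = r^3 + s a r + s b = ff (s a) (s b) r`, `m3 (s a) (s b) (s d) ![r, -1, 0] = m3 (s a) (s b) z z`. Take this `r`.
(1) `t ↦ ff (s a) (s b) t` is continuous and positive at `r`.
(2) Let `σ : L →+* ℝ` with `σ (algebraMap x) = s x`, `ρ = σ θ`: `ρ^3 + s a ρ + s b = 0` (`h.root`), `σ (ev θ d) = D := s (d 0) + s (d 1) ρ + s (d 2) ρ^2 ≠ 0` (injective).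
`D * (r - ρ) = (z 0 + z 1 ρ + z 2 ρ^2)^2`: the identity of D1 `ev_m3` with `K = L = ℝ` (`Algebra ℝ ℝ`, `θ = ρ`, `ev ρ u = u 0 + u 1 ρ + u 2 ρ^2`), or direct: evaluate both sides of the
equality of coordinate vectors at `ρ`. `r ≠ ρ` because `(r - ρ) (ρ^2 + r ρ + r^2 + s a) = ff (s a) (s b) r = y^2 ≠ 0`. So `D (r - ρ) > 0`, and `t ↦ D (t - ρ)` is continuous, positive at `r`.
(3) There are finitely many `σ : L →+* ℝ` (`Finite (L →+* ℝ)`: `Finite.of_injective` into `L →+* ℂ` by composition with `Complex.ofRealHom`, or the instance for number fields), so there is `ε > 0` such that for `|t - r| < ε`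
all these (finitely many) continuous functions of `t` are positive: use `Filter.Eventually` at `𝓝 r`: `Filter.eventually_all`, `ContinuousAt.eventually_lt`/`Continuous.tendsto`, `Metric.eventually_nhds_iff`. For `x : K` apply it to `t = s x`:
`s (ff a b x) = ff (s a) (s b) (s x)` (`ff_map`), `σ (ev θ d * (algebraMap x - θ)) = D (s x - ρ)`.
-/

set_option autoImplicit false
set_option linter.unusedSectionVars false
open scoped Classical

open WithZero NumberField IsDedekindDomain H38RT H76PP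

namespace H54PR

variable {K L : Type} [Field K] [NumberField K] [Field L] [NumberField L] [Algebra K L]

theorem Vd_fin : Finite (L →+* ℝ) := by
  have : Finite (L →+* ℂ) := inferInstance
  refine Finite.of_injective (fun σ : L →+* ℝ => (Complex.ofRealHom.comp σ : L →+* ℂ)) ?_
  intro σ τ h
  ext x
  have h1 := congrArg (fun φ : L →+* ℂ => φ x) h
  simpa using h1

theorem LC_real {a b : K} {θ : L} (h : Cub K L a b θ) {d : Fin 3 → K} (hd : ev θ d ≠ 0)
    (s : K →+* ℝ) (hLC : LC s a b d) :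
    ∃ r ε : ℝ, 0 < ε ∧ ∀ x : K, |s x - r| < ε → 0 < s (ff a b x) ∧
      ∀ σ : L →+* ℝ, (∀ y : K, σ (algebraMap K L y) = s y) →
        0 < σ (ev θ d * (algebraMap K L x - θ)) := by
  obtain ⟨r, y, z, hy, hyr, hz⟩ := hLC
  have hf : ff (s a) (s b) r = y ^ 2 := by
    unfold ff
    rw [hyr]
  have hf0 : 0 < ff (s a) (s b) r := by
    rw [hf]
    positivity
  have hfin : Finite (L →+* ℝ) := Vd_fin
  have hc1 : Continuous (fun t : ℝ => ff (s a) (s b) t) := by
    unfold ff
    fun_prop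
  have e1 : ∀ᶠ t in nhds r, 0 < ff (s a) (s b) t :=
    hc1.continuousAt.eventually (lt_mem_nhds hf0)
  have e2 : ∀ σ : L →+* ℝ, (∀ y : K, σ (algebraMap K L y) = s y) →
      ∀ᶠ t in nhds r, 0 < σ (ev θ d) * (t - σ θ) := by
    intro σ hσ
    have hroot : (σ θ) ^ 3 + algebraMap ℝ ℝ (s a) * (σ θ) + algebraMap ℝ ℝ (s b) = 0 := by
      have h1 := congrArg σ h.root
      rw [map_add, map_add, map_mul, map_pow, hσ, hσ, map_zero] at h1
      exact h1
    have hev : σ (ev θ d) = ev (σ θ) (fun j => s (d j)) := by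
      unfold ev
      simp only [map_add, map_mul, map_pow, hσ]
      rfl
    have h3 : ev (σ θ) (fun j => s (d j)) * (r - σ θ) = ev (σ θ) z * ev (σ θ) z := by
      rw [← ev_m3 hroot, ← hz, ev_m3 hroot, ev_sub]
      rfl
    have h4 : σ (ev θ d) ≠ 0 := (map_ne_zero σ).2 hd
    have h5 : r - σ θ ≠ 0 := by
      intro h0
      have h6 := sub_mul_quad hroot r
      have h7 : algebraMap ℝ ℝ r - σ θ = 0 := h0
      rw [h7, zero_mul] at h6
      have h8 : algebraMap ℝ ℝ (ff (s a) (s b) r) = ff (s a) (s b) r := rfl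
      rw [h8] at h6
      exact hf0.ne h6
    have h6 : 0 < σ (ev θ d) * (r - σ θ) := by
      have h7 : σ (ev θ d) * (r - σ θ) ≠ 0 := mul_ne_zero h4 h5
      have h8 : 0 ≤ σ (ev θ d) * (r - σ θ) := by
        rw [hev, h3]
        exact mul_self_nonneg _
      exact lt_of_le_of_ne h8 (Ne.symm h7)
    have hc2 : Continuous (fun t : ℝ => σ (ev θ d) * (t - σ θ)) := by fun_prop
    exact hc2.continuousAt.eventually (lt_mem_nhds h6)
  have e3 : ∀ᶠ t in nhds r, ∀ σ : L →+* ℝ, (∀ y : K, σ (algebraMap K L y) = s y) →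
      0 < σ (ev θ d) * (t - σ θ) := by
    rw [Filter.eventually_all]
    intro σ
    by_cases hσ : ∀ y : K, σ (algebraMap K L y) = s y
    · exact (e2 σ hσ).mono fun t ht _ => ht
    · exact Filter.Eventually.of_forall fun t ht => absurd ht hσ
  obtain ⟨ε, hε, hball⟩ := Metric.eventually_nhds_iff.1 (e1.and e3)
  refine ⟨r, ε, hε, fun x hx => ?_⟩
  have h1 := hball (y := s x) (by rw [Real.dist_eq]; exact hx)
  refine ⟨?_, fun σ hσ => ?_⟩
  · rw [ff_map]
    exact h1.1
  · rw [map_mul, map_sub, hσ]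
    exact h1.2 σ hσ

end H54PR
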