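import Pool.Agent.H54.PR.Wb
import Pool.Agent.H54.PR.Vc
import Pool.Agent.H54.PR.Vd

/-!
ROW Sd (project MP_78d38b_PP, block R2, about 130 lines): the element of `K` close to the local points.
Use the STATEMENTS `weak2` (Wb), `LC_two` (Vc), `LC_real` (Vd).

PROOF. `S` = the finite set of the places `v` of `K` with `v.valuation K 2 < 1` (`H38RT.fin_bad` for `2 ≠ 0`). For `v ∈ S` choose `x₀ v, N v` from `LC_two`, for every `s : K →+* ℝ` choose `r s, ε s` from `LC_real`. `N` = maximum (or sum) of the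
`N v`, `ε` = a positive number `≤ ε s` for all `s` (finitely many `s`; `Finite (K →+* ℝ)`; if there is none take `1`; e.g. the minimum over `Finset.univ` of a nonempty finset, or by induction). `weak2` gives `x ≠ c`.
`Sq8 K (ff A B x)`: from `LC_two`. `0 < s (ff ..)`: `LC_real`. `Sq8 L`: a place `w` of `L` with `w.valuation L 2 < 1` lies above a `v = dn K w` with `v.valuation K 2 < 1` (otherwise `v.valuation K 2 = 1` (`H38RT.val_two_le`) and
`H76PP.val_one` gives `w.valuation L 2 = 1`). `σ : L →+* ℝ`: take `s = σ.comp (algebraMap K L)`.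
-/

set_option autoImplicit false
set_option linter.unusedSectionVars false
open scoped Classical

open WithZero NumberField IsDedekindDomain H38RT H76PP
open H38T1 (SC sc scu rep eo la si Pri OddP tp unif)

namespace H54PR

variable {K L : Type} [Field K] [NumberField K] [Field L] [NumberField L] [Algebra K L]

theorem exists_pt {A B : 𝓞 K} {θ : L} (h : Cub K L (A : K) (B : K) θ) {d : Fin 3 → K}
    (hd : ev θ d ≠ 0)
    (h2 : ∀ v : HeightOneSpectrum (𝓞 K), v.valuation K 2 < 1 →
      LC (algebraMap K (v.adicCompletion K)) (A : K) (B : K) d)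
    (hr : ∀ s : K →+* ℝ, LC s (A : K) (B : K) d) (c : K) :
    ∃ x : K, x ≠ c ∧ Sq8 K (ff (A : K) (B : K) x) ∧
      (∀ s : K →+* ℝ, 0 < s (ff (A : K) (B : K) x)) ∧
      Sq8 L (ev θ d * (algebraMap K L x - θ)) ∧
      ∀ σ : L →+* ℝ, 0 < σ (ev θ d * (algebraMap K L x - θ)) := by
  have hfin : {v : HeightOneSpectrum (𝓞 K) | v.valuation K 2 < 1}.Finite :=
    (fin_bad (K := K) (x := 2) two_ne_zero).subset (fun v hv => ne_of_lt hv)
  choose! x₀ N hN using fun (v : HeightOneSpectrum (𝓞 K)) (hv : v.valuation K 2 < 1) =>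
    LC_two h hd v (h2 v hv)
  choose r ε hε hr' using fun (s : K →+* ℝ) => LC_real (L := L) h hd s (hr s)
  obtain ⟨ε₀, hε₀, hle⟩ : ∃ e : ℝ, 0 < e ∧ ∀ s, e ≤ ε s := by
    by_cases hne : Nonempty (K →+* ℝ)
    · obtain ⟨s0, hs0⟩ := Finite.exists_min ε
      exact ⟨ε s0, hε s0, hs0⟩
    · exact ⟨1, one_pos, fun s => absurd ⟨s⟩ hne⟩
  have hmem : ∀ v, v ∈ hfin.toFinset ↔ v.valuation K 2 < 1 := fun v => by
    rw [Set.Finite.mem_toFinset, Set.mem_setOf_eq]
  obtain ⟨x, hxc, hx1, hx2⟩ := weak2 hfin.toFinset (fun v hv => (hmem v).1 hv) x₀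
    (hfin.toFinset.sup N) r hε₀ c
  have hx3 : ∀ v : HeightOneSpectrum (𝓞 K), v.valuation K 2 < 1 →
      v.valuation K (x - x₀ v) ≤ exp (-(N v : ℤ)) := by
    intro v hv
    refine (hx1 v ((hmem v).2 hv)).trans ?_
    rw [exp_le_exp]
    have h1 : N v ≤ hfin.toFinset.sup N := Finset.le_sup ((hmem v).2 hv)
    omega
  refine ⟨x, hxc, ?_, ?_, ?_, ?_⟩
  · intro v hv
    exact (hN v hv x (hx3 v hv)).1
  · intro s
    exact (hr' s x ((hx2 s).trans_le (hle s))).1
  · intro w hw
    have hv : (dn K w).valuation K 2 < 1 := by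
      by_contra hcon
      have h1 : (dn K w).valuation K 2 = 1 := le_antisymm (val_two_le _) (not_lt.1 hcon)
      have h3 := val_one h1
      rw [map_ofNat] at h3
      exact absurd h3 (ne_of_lt hw)
    exact (hN _ hv x (hx3 _ hv)).2 w rfl
  · intro σ
    exact (hr' (σ.comp (algebraMap K L)) x ((hx2 _).trans_le (hle _))).2 σ (fun y => rfl)

end H54PR
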