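import Pool.Agent.H54.PR.Sa
import Pool.Agent.H54.PR.Sb
import Pool.Agent.H54.PR.Sd

/-!
(8.5) of the note of the project MP_78d38b_PP (assembled by helper54).
-/

set_option autoImplicit false
set_option linter.unusedSectionVars false
open scoped Classical

open WithZero NumberField IsDedekindDomain H38RT H76PP
open H38T1 (SC sc scu rep eo la si Pri OddP tp unif)

namespace H54PR

variable {K L : Type} [Field K] [NumberField K] [Field L] [NumberField L] [Algebra K L]

theorem sc_two_add {F : Type} [Field F] (c d : SC F) : (c + d) + d = c := by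
  rw [add_assoc]
  have h := SC.two_smul d
  rw [two_nsmul] at h
  rw [h, add_zero]

theorem sum_zero (hK : RecT K) (hP : ProjT K L) {A B : 𝓞 K} {θ : L}
    (h : Cub K L (A : K) (B : K) θ) {x c : K} (hc : c ≠ 0)
    (h8 : Sq8 K (ff (A : K) (B : K) x)) (hs : ∀ s : K →+* ℝ, 0 < s (ff (A : K) (B : K) x)) :
    ∑ᶠ w : HeightOneSpectrum (𝓞 L), (if OddP w then
      tp w (sc (algebraMap K L x - θ)) (sc (algebraMap K L c)) else 0) = 0 := by
  rw [sum_dn hP (sub_ne h x) hc, h.norm_sub x]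
  have h1 := hK c (ff (A : K) (B : K) x) hc (ff_ne h x) h8 hs
  refine Eq.trans (finsum_congr fun v => ?_) h1
  by_cases hv : OddP v
  · rw [if_pos hv, if_pos hv, H38T1.tp_comm]
    rfl
  · rw [if_neg hv, if_neg hv]

theorem iso_sum' (hK : RecT K) (hL : RecT L) (hP : ProjT K L) {A B : 𝓞 K} {θ : L}
    (h : Cub K L (A : K) (B : K) θ) {d d' : Fin 3 → K} (hd0 : ev θ d ≠ 0)
    (hd0' : ev θ d' ≠ 0)
    (h2 : ∀ v : HeightOneSpectrum (𝓞 K), v.valuation K 2 < 1 →
      LC (algebraMap K (v.adicCompletion K)) (A : K) (B : K) d ∧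
      LC (algebraMap K (v.adicCompletion K)) (A : K) (B : K) d')
    (hr : ∀ s : K →+* ℝ, LC s (A : K) (B : K) d ∧ LC s (A : K) (B : K) d') :
    ∑ᶠ w : HeightOneSpectrum (𝓞 L),
      (if OddP w then tp w (sc (ev θ d)) (sc (ev θ d')) else 0) = 0 := by
  obtain ⟨a, -, ha1, ha2, ha3, ha4⟩ := exists_pt h hd0 (fun v hv => (h2 v hv).1)
    (fun s => (hr s).1) 0
  obtain ⟨b, hab, hb1, hb2, hb3, hb4⟩ := exists_pt h hd0' (fun v hv => (h2 v hv).2)
    (fun s => (hr s).2) a
  set δ := ev θ d with hδ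
  set δ' := ev θ d' with hδ'
  set U : L := algebraMap K L a - θ with hU
  set W : L := algebraMap K L b - θ with hW
  have hU0 : U ≠ 0 := sub_ne h a
  have hW0 : W ≠ 0 := sub_ne h b
  have hc : a - b ≠ 0 := sub_ne_zero.2 (Ne.symm hab)
  have hUW : U - W = algebraMap K L (a - b) := by
    rw [hU, hW, map_sub]
    ring
  have hUW0 : U - W ≠ 0 := by
    rw [hUW]
    exact (map_ne_zero (algebraMap K L)).2 hc
  have s1 := hL δ' (δ * U) hd0' (mul_ne_zero hd0 hU0) ha3 ha4
  have s2 := hL U (δ' * W) hU0 (mul_ne_zero hd0' hW0) hb3 hb4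
  have s3 := sum_zero hK hP h (neg_ne_zero.2 hc) ha1 ha2
  have s4 := sum_zero hK hP h hc hb1 hb2
  have f1 := tp_fin hd0' (mul_ne_zero hd0 hU0)
  have f2 := tp_fin hU0 (mul_ne_zero hd0' hW0)
  have f3 := tp_fin hU0 (neg_ne_zero.2 hUW0)
  have f4 := tp_fin hW0 hUW0
  have key : ∀ w : HeightOneSpectrum (𝓞 L),
      (if OddP w then tp w (sc δ) (sc δ') else 0) =
      ((if OddP w then tp w (sc δ') (sc (δ * U)) else 0) +
        (if OddP w then tp w (sc U) (sc (δ' * W)) else 0)) +
      ((if OddP w then tp w (sc U) (sc (-(U - W))) else 0) +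
        (if OddP w then tp w (sc W) (sc (U - W)) else 0)) := by
    intro w
    by_cases hw : OddP w
    · simp only [if_pos hw]
      rw [← tp_sub hw hU0 hW0 hUW0, H38T1.sc_mul hd0 hU0, H38T1.sc_mul hd0' hW0,
        tp_add_right hw, tp_add_right hw, H38T1.tp_comm (sc δ) (sc δ'),
        H38T1.tp_comm (sc U) (sc δ')]
      have e1 : ∀ x y z : ZMod 2, x = x + y + (y + z) + z := by decide
      exact e1 _ _ _
    · simp only [if_neg hw, add_zero]
  rw [finsum_congr key, finsum_add_distrib, finsum_add_distrib f1 f2, finsum_add_distrib f3 f4,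
    s1, s2]
  · rw [map_neg] at s3
    rw [hUW, s3, s4, add_zero, add_zero]
  · exact (f1.union f2).subset (Function.support_add _ _)
  · exact (f3.union f4).subset (Function.support_add _ _)

/-- (8.5), in the form of `IfR.lean`, for every reciprocity law and projection formula. -/
theorem iso_sum (hK : RecT K) (hL : RecT L) (hP : ProjT K L) {A B : 𝓞 K} {θ : L}
    (h : Cub K L (A : K) (B : K) θ) {d d' : Fin 3 → K} (hd0 : ev θ d ≠ 0)
    (hd0' : ev θ d' ≠ 0) (_hN : IsSquare (Algebra.norm K (ev θ d)))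
    (_hN' : IsSquare (Algebra.norm K (ev θ d')))
    (h2 : ∀ v : HeightOneSpectrum (𝓞 K), v.valuation K 2 < 1 →
      LC (algebraMap K (v.adicCompletion K)) (A : K) (B : K) d ∧
      LC (algebraMap K (v.adicCompletion K)) (A : K) (B : K) d')
    (hr : ∀ s : K →+* ℝ, LC s (A : K) (B : K) d ∧ LC s (A : K) (B : K) d') :
    ∑ᶠ w : HeightOneSpectrum (𝓞 L),
      (if OddP w then tp w (sc (ev θ d)) (sc (ev θ d')) else 0) = 0 :=
  iso_sum' hK hL hP h hd0 hd0' h2 hr

end H54PR
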