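import Pool.Agent.H54.PR.D1

/-!
ROW Sa (project MP_78d38b_PP, block R2, about 130 lines): the Steinberg relation for the tame symbol and
a consequence. Use `Pool/Agent/H38/T1/Ea.lean` (`eo_sc`, `la_sc`, `tp_comm`, `tp_add_left`, `tp_neg`, ...).

PROOF. `v` odd. (0) If `v.valuation F (y - 1) < 1` then `v.valuation F y = 1`, `eo v (sc y) = 0` (`eo_sc`, `ord = 0`) and `la v (sc y) = 0` (`la_sc`, `H38RT.lam_unit`, `Sq` with `t = 1`), so
`tp v c (sc y) = 0` for all `c` (unfold `tp`).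
(1) `tp_stein`: if `v x < 1`: `1 - x` is as in (0). If `v x > 1`: `1 - x = (-x) * (1 - x⁻¹)`, `sc (1 - x) = sc (-x) + sc (1 - x⁻¹)` (`sc_mul`), `tp v (sc x) (sc (-x)) = 0` (`tp_neg`), and `1 - x⁻¹` is as in (0);
use additivity in the second argument (`tp_comm`, `tp_add_left`). If `v x = 1` and `v (1 - x) < 1`: (0) for `y = x` and `tp_comm`. If `v x = v (1 - x) = 1` (`v (1 - x) ≤ 1`): both `eo` are zero, `tp = 0`.
(2) `tp_sub`: `c = U - W ≠ 0`. `tp v (sc (U / c)) (sc (1 - U / c)) = 0` by (1) (`U / c ≠ 0`; `U / c ≠ 1` as `W ≠ 0`), `1 - U / c = -W / c = (-1) * W / c`. `sc (U / c) = sc U + sc c`, `sc (-W / c) = sc W + sc (-c)` (note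
`-W / c = W * (-c)⁻¹`..: `U / c = U * c * (c⁻¹)^2`, `-W/c = W * (-c) * (c⁻¹)^2`, a square has class zero). Expand: `0 = tp(U,W) + tp(U,-c) + tp(c,W) + tp(c,-c)` and `tp(c,-c) = 0` (`tp_neg`); in `ZMod 2` (`CharTwo`):
`tp(U,W) = tp(U,-c) + tp(W,c)`.
-/

set_option autoImplicit false
set_option linter.unusedSectionVars false
open scoped Classical

open WithZero NumberField IsDedekindDomain H38RT H76PP
open H38T1 (SC sc scu rep eo la si Pri OddP tp unif)

namespace H54PR

variable {F : Type} [Field F] [NumberField F] {v : HeightOneSpectrum (𝓞 F)}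

private theorem Sa_ord {y : F} (h : v.valuation F y = 1) : ord (v.valuation F) y = 0 := by
  unfold ord
  rw [h, log_one, neg_zero]

private theorem Sa_ne {y : F} (h : v.valuation F y = 1) : y ≠ 0 := by
  rintro rfl
  rw [map_zero] at h
  exact zero_ne_one h

private theorem Sa_eo {y : F} (h : v.valuation F y = 1) : eo v (sc y) = 0 := by
  rw [H38T1.eo_sc (Sa_ne h), Sa_ord h]
  exact Int.cast_zero

private theorem Sa_near {y : F} (h : v.valuation F (y - 1) < 1) : v.valuation F y = 1 := by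
  have h1 := Valuation.map_one_add_of_lt (v.valuation F) h
  rwa [add_sub_cancel] at h1

private theorem Sa_zero (hv : OddP v) {y : F} (h : v.valuation F (y - 1) < 1) (c : SC F) :
    tp v c (sc y) = 0 := by
  have h1 := Sa_near h
  have h2 : la v (sc y) = 0 := by
    rw [H38T1.la_sc hv (Sa_ne h1), lam_unit h1]
    refine if_pos ⟨1, ?_⟩
    rwa [one_pow]
  unfold tp
  rw [Sa_eo h1, h2]
  ring

private theorem Sa_two (c : SC F) : c + c = 0 := (two_nsmul c).symm.trans (H38T1.SC.two_smul c)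

private theorem Sa_div {a b : F} (ha : a ≠ 0) (hb : b ≠ 0) : sc (a / b) = sc a + sc b := by
  have h1 : sc a = sc (a / b) + sc b := by
    rw [← H38T1.sc_mul (div_ne_zero ha hb) hb, div_mul_cancel₀ a hb]
  rw [h1, add_assoc, Sa_two, add_zero]

theorem tp_add_right (hv : OddP v) (d c c' : SC F) :
    tp v d (c + c') = tp v d c + tp v d c' := by
  rw [H38T1.tp_comm, H38T1.tp_add_left hv, H38T1.tp_comm, H38T1.tp_comm c']

theorem tp_stein (hv : OddP v) {x : F} (hx : x ≠ 0) (hx1 : x ≠ 1) :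
    tp v (sc x) (sc (1 - x)) = 0 := by
  rcases lt_trichotomy (v.valuation F x) 1 with h | h | h
  · refine Sa_zero hv ?_ _
    have h1 : (1 - x) - 1 = - x := by ring
    rw [h1, Valuation.map_neg]
    exact h
  · by_cases h2 : v.valuation F (1 - x) < 1
    · rw [H38T1.tp_comm]
      refine Sa_zero hv ?_ _
      rwa [Valuation.map_sub_swap]
    · have h3 : v.valuation F (1 - x) ≤ 1 := by
        refine (Valuation.map_sub (v.valuation F) 1 x).trans ?_
        rw [map_one, h, max_self]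
      have h4 : v.valuation F (1 - x) = 1 := le_antisymm h3 (not_lt.1 h2)
      unfold tp
      rw [Sa_eo h, Sa_eo h4]
      ring
  · have h1 : 1 - x = (-x) * (1 - x⁻¹) := by
      field_simp
      ring
    have h2 : v.valuation F ((1 - x⁻¹) - 1) < 1 := by
      have h3 : (1 - x⁻¹) - 1 = - x⁻¹ := by ring
      rw [h3, Valuation.map_neg]
      exact (Valuation.one_lt_val_iff (v.valuation F) hx).1 h
    rw [h1, H38T1.sc_mul (neg_ne_zero.2 hx) (Sa_ne (Sa_near h2)), tp_add_right hv, H38T1.tp_neg hv hx,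
      Sa_zero hv h2, add_zero]

theorem tp_sub (hv : OddP v) {U W : F} (hU : U ≠ 0) (hW : W ≠ 0) (hc : U - W ≠ 0) :
    tp v (sc U) (sc W) = tp v (sc U) (sc (-(U - W))) + tp v (sc W) (sc (U - W)) := by
  obtain ⟨c, hcd⟩ : ∃ c, c = U - W := ⟨_, rfl⟩
  rw [← hcd] at hc ⊢
  have h1 : U / c ≠ 1 := by
    intro h
    rw [div_eq_one_iff_eq hc, hcd] at h
    exact hW (by linear_combination h)
  have h2 := tp_stein hv (div_ne_zero hU hc) h1
  have h3 : 1 - U / c = W / (-c) := by
    rw [div_neg, one_sub_div hc, ← neg_div]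
    congr 1
    rw [hcd]
    ring
  rw [h3, Sa_div hU hc, Sa_div hW (neg_ne_zero.2 hc), H38T1.tp_add_left hv, tp_add_right hv, tp_add_right hv,
    H38T1.tp_neg hv hc, add_zero] at h2
  rw [H38T1.tp_comm (sc W)]
  have h4 : tp v (sc U) (sc W) + (tp v (sc U) (sc (-c)) + tp v (sc c) (sc W)) = 0 := by
    rw [← add_assoc]
    exact h2
  have h5 := eq_neg_of_add_eq_zero_left h4
  rwa [CharTwo.neg_eq] at h5

end H54PR
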