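import Pool.Agent.H54.PR.D1

/-!
ROW Va (project MP_78d38b_PP, block R2, about 160 lines): from a local condition over the completion to
elements of `K`, with arbitrary precision.

PROOF. `Kv = v.adicCompletion K`, `i = algebraMap K Kv`, `Valued.v (i x) = v.valuation K x` (`HeightOneSpectrum.valuedAdicCompletion_eq_valuation`..). `hLC` gives
`x₀, y₀, z₀` with `y₀ ≠ 0`, `y₀^2 = x₀^3 + i a x₀ + i b`, `m3 (i a) (i b) (i d) (x₀, -1, 0) = m3 (i a) (i b) z₀ z₀`. Choose `C : ℕ` with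
`Valued.v` of `x₀, y₀, z₀ j, i a, i b, i (d j)`, `1` all `≤ exp C` and `exp (-C) ≤ Valued.v y₀`. Take `R = C`. Given `M`, put `M' = M + 3 C + 1`. `K` is dense in `Kv`
(`HeightOneSpectrum.denseRange_algebraMap`; models `Pool/Agent/H10/LocalRing.lean` line 105, `Pool/Agent/H10/Semi.lean`), so there are `x, y, z j : K` with
`Valued.v (i x - x₀) ≤ exp (-M')`, same for `y, y₀` and `z j, z₀ j`. Then `v x ≤ exp C`, `v y = Valued.v y₀` (ultrametric, `M' > C`), and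
`f(x) - y^2 = (i x - x₀)(i x^2 + i x x₀ + x₀^2 + i a) - (i y - y₀)(i y + y₀)` has value `≤ exp (-M' + 2 C) ≤ exp (-M)`.
Coordinates: `m3 .. (x,-1,0) j - m3 .. (x₀,-1,0) j = i (d j) * (i x - x₀)`, and `m3 z z j - m3 z₀ z₀ j` is a sum of terms `± c (z_k z_l - z₀_k z₀_l)` with `c = 1, a, b`,
`z_k z_l - z₀_k z₀_l = (z_k - z₀_k) z_l + z₀_k (z_l - z₀_l)`: value `≤ exp (C + C - M') ≤ exp (-M)`.
(Alternatively use continuity of polynomial functions and density of `K^5` in `Kv^5` (`DenseRange.prodMap`, `DenseRange` for `Pi`), the conditions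
`Valued.v (..) < exp (-M + 1)` being open.)
-/

set_option autoImplicit false
set_option linter.unusedSectionVars false
open scoped Classical

open WithZero NumberField IsDedekindDomain H38RT H76PP

namespace H54PR

variable {K : Type} [Field K] [NumberField K]

/-- Two nearby elements of bounded value. -/
structure Va_Nr {F : Type*} [Field F] (V : Valuation F (WithZero (Multiplicative ℤ))) (C M : ℤ)
    (x x₀ : F) : Prop where
  b1 : V x ≤ exp C
  b0 : V x₀ ≤ exp C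
  nr : V (x - x₀) ≤ exp (-M)

section Va

variable {F : Type*} [Field F] {V : Valuation F (WithZero (Multiplicative ℤ))} {C D M N : ℤ}
  {x y x₀ y₀ : F}

theorem Va_weak (h : Va_Nr V C M x x₀) {C' M' : ℤ} (hC : C ≤ C') (hM : M' ≤ M) :
    Va_Nr V C' M' x x₀ :=
  ⟨h.b1.trans (exp_le_exp.2 hC), h.b0.trans (exp_le_exp.2 hC),
    h.nr.trans (exp_le_exp.2 (by omega))⟩

theorem Va_add (h : Va_Nr V C M x x₀) (h' : Va_Nr V C M y y₀) :
    Va_Nr V C M (x + y) (x₀ + y₀) := by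
  refine ⟨V.map_add_le h.b1 h'.b1, V.map_add_le h.b0 h'.b0, ?_⟩
  rw [add_sub_add_comm]
  exact V.map_add_le h.nr h'.nr

theorem Va_neg (h : Va_Nr V C M x x₀) : Va_Nr V C M (-x) (-x₀) := by
  refine ⟨?_, ?_, ?_⟩
  · rw [Valuation.map_neg]
    exact h.b1
  · rw [Valuation.map_neg]
    exact h.b0
  · rw [show -x - -x₀ = -(x - x₀) by ring, Valuation.map_neg]
    exact h.nr

theorem Va_sub (h : Va_Nr V C M x x₀) (h' : Va_Nr V C M y y₀) :
    Va_Nr V C M (x - y) (x₀ - y₀) := by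
  rw [sub_eq_add_neg, sub_eq_add_neg]
  exact Va_add h (Va_neg h')

theorem Va_mul (h : Va_Nr V C M x x₀) (h' : Va_Nr V D N y y₀) :
    Va_Nr V (C + D) (min (M - D) (N - C)) (x * y) (x₀ * y₀) := by
  refine ⟨?_, ?_, ?_⟩
  · rw [map_mul, exp_add]
    exact mul_le_mul' h.b1 h'.b1
  · rw [map_mul, exp_add]
    exact mul_le_mul' h.b0 h'.b0
  · rw [show x * y - x₀ * y₀ = (x - x₀) * y + x₀ * (y - y₀) by ring]
    refine V.map_add_le ?_ ?_
    · rw [map_mul]
      refine (mul_le_mul' h.nr h'.b1).trans ?_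
      rw [← exp_add, exp_le_exp]
      omega
    · rw [map_mul]
      refine (mul_le_mul' h.b0 h'.nr).trans ?_
      rw [← exp_add, exp_le_exp]
      omega

theorem Va_mul2 (hC : 0 ≤ C) (h : Va_Nr V C M x x₀) (h' : Va_Nr V C M y y₀) :
    Va_Nr V (3 * C) (M - 2 * C) (x * y) (x₀ * y₀) :=
  Va_weak (Va_mul h h') (by omega) (by omega)

theorem Va_mul3 {z z₀ : F} (hC : 0 ≤ C) (h : Va_Nr V C M x x₀) (h' : Va_Nr V C M y y₀)
    (h'' : Va_Nr V C M z z₀) :
    Va_Nr V (3 * C) (M - 2 * C) (x * (y * z)) (x₀ * (y₀ * z₀)) :=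
  Va_weak (Va_mul h (Va_mul h' h'')) (by omega) (by omega)

theorem Va_m3 {a b a₀ b₀ : F} {u w u₀ w₀ : Fin 3 → F} (hC : 0 ≤ C) (ha : Va_Nr V C M a a₀)
    (hb : Va_Nr V C M b b₀) (hu : ∀ j, Va_Nr V C M (u j) (u₀ j))
    (hw : ∀ j, Va_Nr V C M (w j) (w₀ j)) (j : Fin 3) :
    Va_Nr V (3 * C) (M - 2 * C) (m3 a b u w j) (m3 a₀ b₀ u₀ w₀ j) := by
  have e0 : ∀ (a b : F) (u w : Fin 3 → F), m3 a b u w 0 =
      u 0 * w 0 - (b * (u 1 * w 2) + b * (u 2 * w 1)) := fun a b u w => by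
    change u 0 * w 0 - b * (u 1 * w 2 + u 2 * w 1) = _
    ring
  have e1 : ∀ (a b : F) (u w : Fin 3 → F), m3 a b u w 1 =
      u 0 * w 1 + u 1 * w 0 - (a * (u 1 * w 2) + a * (u 2 * w 1)) - b * (u 2 * w 2) :=
    fun a b u w => by
    change u 0 * w 1 + u 1 * w 0 - a * (u 1 * w 2 + u 2 * w 1) - b * (u 2 * w 2) = _
    ring
  have e2 : ∀ (a b : F) (u w : Fin 3 → F), m3 a b u w 2 =
      u 0 * w 2 + u 1 * w 1 + u 2 * w 0 - a * (u 2 * w 2) := fun a b u w => rfl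
  fin_cases j
  · change Va_Nr V (3 * C) (M - 2 * C) (m3 a b u w 0) (m3 a₀ b₀ u₀ w₀ 0)
    rw [e0, e0]
    exact Va_sub (Va_mul2 hC (hu 0) (hw 0)) (Va_add (Va_mul3 hC hb (hu 1) (hw 2))
      (Va_mul3 hC hb (hu 2) (hw 1)))
  · change Va_Nr V (3 * C) (M - 2 * C) (m3 a b u w 1) (m3 a₀ b₀ u₀ w₀ 1)
    rw [e1, e1]
    exact Va_sub (Va_sub (Va_add (Va_mul2 hC (hu 0) (hw 1)) (Va_mul2 hC (hu 1) (hw 0)))
      (Va_add (Va_mul3 hC ha (hu 1) (hw 2)) (Va_mul3 hC ha (hu 2) (hw 1))))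
      (Va_mul3 hC hb (hu 2) (hw 2))
  · change Va_Nr V (3 * C) (M - 2 * C) (m3 a b u w 2) (m3 a₀ b₀ u₀ w₀ 2)
    rw [e2, e2]
    exact Va_sub (Va_add (Va_add (Va_mul2 hC (hu 0) (hw 2)) (Va_mul2 hC (hu 1) (hw 1)))
      (Va_mul2 hC (hu 2) (hw 0))) (Va_mul3 hC ha (hu 2) (hw 2))

theorem Va_ff {a b a₀ b₀ : F} (hC : 0 ≤ C) (ha : Va_Nr V C M a a₀) (hb : Va_Nr V C M b b₀)
    (hx : Va_Nr V C M x x₀) (hy : Va_Nr V C M y y₀) :
    Va_Nr V (3 * C) (M - 2 * C) (ff a b x - y ^ 2) (ff a₀ b₀ x₀ - y₀ ^ 2) := by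
  have e : ∀ a b x y : F, ff a b x - y ^ 2 = x * (x * x) + a * x + b - y * y :=
    fun a b x y => by
    unfold ff
    ring
  rw [e, e]
  exact Va_sub (Va_add (Va_add (Va_mul3 hC hx hx hx) (Va_mul2 hC ha hx))
    (Va_weak hb (by omega) (by omega))) (Va_mul2 hC hy hy)

theorem Va_up (t : WithZero (Multiplicative ℤ)) : ∃ C : ℕ, t ≤ exp (C : ℤ) := by
  by_cases h : t = 0
  · exact ⟨0, by rw [h]; exact zero_le⟩
  · refine ⟨(log t).toNat, ?_⟩
    rw [← log_le_iff_le_exp h]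
    exact Int.self_le_toNat _

theorem Va_down {t : WithZero (Multiplicative ℤ)} (h : t ≠ 0) : ∃ C : ℕ, exp (-(C : ℤ)) ≤ t := by
  refine ⟨(-(log t)).toNat, ?_⟩
  rw [← le_log_iff_exp_le h]
  have := Int.self_le_toNat (-(log t))
  omega

theorem Va_const (c : F) (h : V c ≤ exp C) : Va_Nr V C M c c :=
  ⟨h, h, by rw [sub_self, map_zero]; exact zero_le⟩

theorem Va_of (h0 : V x₀ ≤ exp C) (h : V (x - x₀) ≤ exp (-M)) (hM : -M ≤ C) :
    Va_Nr V C M x x₀ := by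
  refine ⟨?_, h0, h⟩
  rw [show x = (x - x₀) + x₀ by ring]
  exact V.map_add_le (h.trans (exp_le_exp.2 hM)) h0

end Va

theorem Va_dense (v : HeightOneSpectrum (𝓞 K)) (x : v.adicCompletion K) (n : ℕ) :
    ∃ k : K, Valued.v (algebraMap K (v.adicCompletion K) k - x) ≤ exp (-(n : ℤ)) := by
  have hd := HeightOneSpectrum.denseRange_algebraMap (K := K) v
  have hopen : IsOpen {y : v.adicCompletion K | Valued.v (y - x) < exp (-(n : ℤ))} := by
    have h1 : IsOpen {y : v.adicCompletion K | Valued.v y < exp (-(n : ℤ))} := by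
      obtain ⟨t, ht⟩ := v.valuedAdicCompletion_surjective K (exp (-(n : ℤ)))
      have := Valued.isOpen_ball (v.adicCompletion K) (Valued.v.restrict t)
      simp_rw [Valuation.restrict_lt_iff] at this
      rwa [ht] at this
    exact h1.preimage (continuous_sub_right x)
  obtain ⟨k, hk⟩ := hd.exists_mem_open hopen ⟨x, by simp⟩
  exact ⟨k, le_of_lt hk⟩


theorem LC_near {a b : K} {d : Fin 3 → K} (v : HeightOneSpectrum (𝓞 K))
    (hLC : LC (algebraMap K (v.adicCompletion K)) a b d) :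
    ∃ R : ℕ, ∀ M : ℕ, ∃ (x y : K) (z : Fin 3 → K), v.valuation K x ≤ exp (R : ℤ) ∧
      exp (-(R : ℤ)) ≤ v.valuation K y ∧ v.valuation K (ff a b x - y ^ 2) ≤ exp (-(M : ℤ)) ∧
      ∀ j, v.valuation K (m3 a b d ![x, -1, 0] j - m3 a b z z j) ≤ exp (-(M : ℤ)) := by
  obtain ⟨x₀, y₀, z₀, hy0, hxy, hz⟩ := hLC
  obtain ⟨V, hV⟩ : ∃ V : Valuation (v.adicCompletion K) (WithZero (Multiplicative ℤ)),
      V = Valued.v := ⟨_, rfl⟩
  have hdense : ∀ (x : v.adicCompletion K) (n : ℕ),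
      ∃ k : K, V (algebraMap K (v.adicCompletion K) k - x) ≤ exp (-(n : ℤ)) := by
    intro x n
    rw [hV]
    exact Va_dense v x n
  have hval : ∀ x : K, V (algebraMap K (v.adicCompletion K) x) = v.valuation K x := by
    intro x
    rw [hV]
    exact v.valuedAdicCompletion_eq_valuation' (K := K) x
  obtain ⟨i, hi⟩ : ∃ i : K →+* v.adicCompletion K, i = algebraMap K (v.adicCompletion K) :=
    ⟨_, rfl⟩
  rw [← hi] at hxy hz hval hdense
  clear hi hV
  obtain ⟨C1, h1⟩ := Va_up (V x₀)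
  obtain ⟨C2, h2⟩ := Va_up (V y₀)
  choose C3 h3 using fun j => Va_up (V (z₀ j))
  obtain ⟨C4, h4⟩ := Va_up (V (i a))
  obtain ⟨C5, h5⟩ := Va_up (V (i b))
  choose C6 h6 using fun j => Va_up (V (i (d j)))
  obtain ⟨C7, h7⟩ := Va_down ((Valuation.ne_zero_iff V).2 hy0)
  obtain ⟨C, hC⟩ : ∃ C : ℕ, C = C1 + C2 + (C3 0 + C3 1 + C3 2) + C4 + C5 +
      (C6 0 + C6 1 + C6 2) + C7 := ⟨_, rfl⟩
  have g1 : V x₀ ≤ exp (C : ℤ) := h1.trans (exp_le_exp.2 (by omega))
  have g2 : V y₀ ≤ exp (C : ℤ) := h2.trans (exp_le_exp.2 (by omega))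
  have g3 : ∀ j, V (z₀ j) ≤ exp (C : ℤ) := by
    intro j
    refine (h3 j).trans (exp_le_exp.2 ?_)
    fin_cases j
    · change (C3 0 : ℤ) ≤ C
      omega
    · change (C3 1 : ℤ) ≤ C
      omega
    · change (C3 2 : ℤ) ≤ C
      omega
  have g4 : V (i a) ≤ exp (C : ℤ) := h4.trans (exp_le_exp.2 (by omega))
  have g5 : V (i b) ≤ exp (C : ℤ) := h5.trans (exp_le_exp.2 (by omega))
  have g6 : ∀ j, V (i (d j)) ≤ exp (C : ℤ) := by
    intro j
    refine (h6 j).trans (exp_le_exp.2 ?_)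
    fin_cases j
    · change (C6 0 : ℤ) ≤ C
      omega
    · change (C6 1 : ℤ) ≤ C
      omega
    · change (C6 2 : ℤ) ≤ C
      omega
  have g7 : exp (-(C : ℤ)) ≤ V y₀ := (exp_le_exp.2 (by omega)).trans h7
  refine ⟨C, fun M => ?_⟩
  obtain ⟨M', hM'⟩ : ∃ M' : ℕ, M' = M + 2 * C + 1 := ⟨_, rfl⟩
  obtain ⟨x, hx⟩ := hdense x₀ M'
  obtain ⟨y, hy⟩ := hdense y₀ M'
  choose z hz' using fun j => hdense (z₀ j) M'
  have kx := Va_of (M := (M' : ℤ)) g1 hx (by omega)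
  have ky := Va_of (M := (M' : ℤ)) g2 hy (by omega)
  have kz : ∀ j, Va_Nr V (C : ℤ) (M' : ℤ) (i (z j)) (z₀ j) := fun j =>
    Va_of (g3 j) (hz' j) (by omega)
  have ka : Va_Nr V (C : ℤ) (M' : ℤ) (i a) (i a) := Va_const _ g4
  have kb : Va_Nr V (C : ℤ) (M' : ℤ) (i b) (i b) := Va_const _ g5
  have kd : ∀ j, Va_Nr V (C : ℤ) (M' : ℤ) (i (d j)) (i (d j)) := fun j => Va_const _ (g6 j)
  have hC0 : (0 : ℤ) ≤ (C : ℤ) := by omega
  have hone : V 1 ≤ exp (C : ℤ) := by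
    rw [map_one, ← exp_zero, exp_le_exp]
    exact hC0
  have kw : ∀ j, Va_Nr V (C : ℤ) (M' : ℤ) ((![i x, -1, 0] : Fin 3 → v.adicCompletion K) j)
      ((![x₀, -1, 0] : Fin 3 → v.adicCompletion K) j) := by
    intro j
    fin_cases j
    · exact kx
    · exact Va_neg (Va_const _ hone)
    · exact Va_const (0 : v.adicCompletion K) (by rw [map_zero]; exact zero_le)
  have hmap : ∀ (u w : Fin 3 → K) (j : Fin 3), i (m3 a b u w j) =
      m3 (i a) (i b) (fun j => i (u j)) (fun j => i (w j)) j := by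
    intro u w j
    fin_cases j <;> simp [m3]
  refine ⟨x, y, z, ?_, ?_, ?_, ?_⟩
  · rw [← hval]
    exact kx.b1
  · rw [← hval]
    by_contra hcon
    rw [not_le] at hcon
    have e1 : V y₀ < exp (-(C : ℤ)) := by
      have e2 : y₀ = i y - (i y - y₀) := by ring
      rw [e2]
      refine lt_of_le_of_lt (Valuation.map_sub _ _ _) (max_lt hcon (lt_of_le_of_lt hy ?_))
      rw [exp_lt_exp]
      omega
    exact absurd g7 (not_le.2 e1)
  · rw [← hval, map_sub, ff_map, map_pow]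
    have e1 := (Va_ff hC0 ka kb kx ky).nr
    have e2 : ff (i a) (i b) x₀ - y₀ ^ 2 = 0 := by
      rw [hxy]
      unfold ff
      ring
    rw [e2, sub_zero] at e1
    exact e1.trans (exp_le_exp.2 (by omega))
  · intro j
    rw [← hval, map_sub, hmap, hmap]
    have e0 : (fun j => i ((![x, -1, 0] : Fin 3 → K) j)) = ![i x, -1, 0] := by
      funext j
      fin_cases j
      · rfl
      · change i (-1) = -1
        rw [map_neg, map_one]
      · change i 0 = 0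
        exact map_zero i
    rw [e0]
    have e1 := (Va_m3 hC0 ka kb kd kw j).nr
    have e2 := (Va_m3 hC0 ka kb kz kz j).nr
    have e3 := congrFun hz j
    have e4 : m3 (i a) (i b) (fun j => i (d j)) ![i x, -1, 0] j -
        m3 (i a) (i b) (fun j => i (z j)) (fun j => i (z j)) j =
        (m3 (i a) (i b) (fun j => i (d j)) ![i x, -1, 0] j -
          m3 (i a) (i b) (fun j => i (d j)) ![x₀, -1, 0] j) -
        (m3 (i a) (i b) (fun j => i (z j)) (fun j => i (z j)) j - m3 (i a) (i b) z₀ z₀ j) := by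
      rw [e3]
      ring
    rw [e4]
    refine (Valuation.map_sub _ _ _).trans (max_le (e1.trans (exp_le_exp.2 (by omega)))
      (e2.trans (exp_le_exp.2 (by omega))))

end H54PR
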