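import Mathlib

/-!
ROW Wa (project MP_78d38b_PP, block R2, about 90 lines, Mathlib only): the image of a number field under
its real embeddings is dense.

PROOF. `NumberField.InfinitePlace.denseRange_algebraMap_pi K`: the diagonal of `K` is dense in the product over the infinite places `v` of `WithAbs v.1` (the
elements of this product are families of elements of `K`, the distance at `v` is `v (x - y)`). For a real embedding `s : K →+* ℝ` let
`v s = InfinitePlace.mk ((algebraMap ℝ ℂ).comp s)` (or `Complex.ofRealHom.comp s`): `v s x = |s x|` (`InfinitePlace.mk_eq..`/`InfinitePlace.apply`, `Complex.norm_real`).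
Choose rational numbers `q s` with `|q s - r s| < ε / 2` (`exists_rat_near`). Two different real embeddings have different places (if
`v s = v s'` then `Complex.ofRealHom.comp s` is equal to `Complex.ofRealHom.comp s'` or to its conjugate (`InfinitePlace.mk_eq_iff`), and
`ComplexEmbedding.conjugate` does not change it as its values are real, so `s = s'`); so define the target `z v = q s` if `v = v s` for some `s`
(classical choice), `0` otherwise. (Alternative which avoids this: apply `AbsoluteValue.denseRange_algebraMap_pi` directly to the finite family indexed by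
`K →+* ℝ`: nontrivial, pairwise inequivalent: if the absolute values of `s ≠ s'` were equivalent then the infinite places would be equal by `InfinitePlace.eq_iff_isEquiv`.)
By density (`Metric.denseRange_iff`, `dist_pi_lt_iff`/`dist_le_pi_dist`) there is `t : K` with `|s t - q s| = v s (t - q s) < ε / 2` for all `s`.
-/

set_option autoImplicit false
open scoped Classical

open NumberField

namespace H54PR

variable (K : Type) [Field K] [NumberField K]

/-- The absolute value of a real embedding. -/
noncomputable def Wa_av {K : Type} [Field K] (s : K →+* ℝ) : AbsoluteValue K ℝ where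
  toFun x := |s x|
  map_mul' x y := by
    change |s (x * y)| = |s x| * |s y|
    rw [map_mul, abs_mul]
  nonneg' x := abs_nonneg _
  eq_zero' x := by
    change |s x| = 0 ↔ x = 0
    rw [abs_eq_zero, map_eq_zero]
  add_le' x y := by
    change |s (x + y)| ≤ |s x| + |s y|
    rw [map_add]
    exact abs_add_le _ _

theorem Wa_inj {s s' : K →+* ℝ} (h : (Wa_av s).IsEquiv (Wa_av s')) : s = s' := by
  have h1 : ∀ (x : K) (a b : ℚ), |s x - a| ≤ |(b : ℝ)| ↔ |s' x - a| ≤ |(b : ℝ)| := by
    intro x a b
    have h2 := h (x - (a : K)) (b : K)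
    change |s (x - (a : K))| ≤ |s (b : K)| ↔ |s' (x - (a : K))| ≤ |s' (b : K)| at h2
    rw [map_sub, map_sub, map_ratCast, map_ratCast, map_ratCast, map_ratCast] at h2
    exact h2
  have h3 : ∀ x : K, s x ≤ s' x := by
    intro x
    by_contra hlt
    rw [not_le] at hlt
    obtain ⟨q, hq1, hq2⟩ := exists_rat_btwn hlt
    obtain ⟨M, hM⟩ := exists_rat_gt (|s x| + |(q : ℝ)|)
    have hM0 : (0 : ℝ) < M := lt_of_le_of_lt (by positivity) hM
    have h4 := (h1 x (q + M) M).1 (by
      rw [abs_of_pos hM0, abs_le]
      have h5 := le_abs_self (s x)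
      have h6 := neg_abs_le (q : ℝ)
      push_cast
      constructor <;> linarith)
    rw [abs_of_pos hM0, abs_le] at h4
    push_cast at h4
    linarith [h4.1]
  refine RingHom.ext fun x => le_antisymm (h3 x) ?_
  have h5 := h3 (-x)
  rw [map_neg, map_neg] at h5
  linarith

theorem real_dense (r : (K →+* ℝ) → ℝ) {ε : ℝ} (hε : 0 < ε) :
    ∃ t : K, ∀ s : K →+* ℝ, |s t - r s| < ε := by
  have hq : ∀ s : K →+* ℝ, ∃ q : ℚ, |r s - q| < ε / 2 := fun s => exists_rat_near (r s) (by linarith)
  choose q hq using hq
  have hnt : ∀ s : K →+* ℝ, (Wa_av s).IsNontrivial := by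
    intro s
    refine ⟨2, two_ne_zero, ?_⟩
    change |s 2| ≠ 1
    rw [map_ofNat]
    norm_num
  have hfin : Finite (K →+* ℝ) := by
    refine Finite.of_injective (fun s : K →+* ℝ => (Complex.ofRealHom).comp s) fun s s' hs => ?_
    ext x
    have h1 := congrArg (fun f : K →+* ℂ => f x) hs
    exact Complex.ofReal_injective h1
  have hd := AbsoluteValue.denseRange_algebraMap_pi (v := fun s : K →+* ℝ => Wa_av s) hnt
    (fun s s' hne h => hne (Wa_inj K h))
  have hft := Fintype.ofFinite (K →+* ℝ)
  obtain ⟨t, ht⟩ := Metric.denseRange_iff.1 hd (fun s => WithAbs.toAbs (Wa_av s) ((q s : K))) (ε / 2) (by linarith)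
  refine ⟨t, fun s => ?_⟩
  have h1 := lt_of_le_of_lt (dist_le_pi_dist _ _ s) ht
  rw [dist_eq_norm] at h1
  have h2 : |s ((q s : K) - t)| < ε / 2 := h1
  rw [map_sub, map_ratCast] at h2
  have h3 := hq s
  rw [abs_lt] at *
  constructor <;> linarith [h2.1, h2.2, h3.1, h3.2]

end H54PR
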