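import Pool.Agent.H54.PR.D1
import Pool.Agent.H54.PR.Wa
import Pool.Agent.H38.RT.Pr

/-!
ROW Wb (project MP_78d38b_PP, block R2, about 180 lines): simultaneous approximation at places above two
and at the real places. Use the STATEMENT `real_dense` (Wa), `Pr_crt`, `Pr_small`, `Pr_nat`, `Pr_odd` of `Pool/Agent/H38/RT/Pr.lean` (they are in the namespace of
that file and not private; otherwise copy them).

PROOF. (1) `fin_app`: there is `x₁ : K` with `v.valuation K (x₁ - a v) ≤ exp (-N)` for `v ∈ S`: there is an odd-free denominator: choose `k` with `2^k * a v`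
integral at every `v ∈ S` (`v.valuation K 2 < 1`, so `v.valuation (2^k a v) ≤ 1` for large `k`; `S` finite, take the maximum), then `Pr_app` for `2^k a v` with
`γ v = v.valuation K (2^k) * exp (-N)` gives `y`; `x₁ = y / 2^k`.
(2) `real_dense` for `r s - s x₁` and `ε / 4`: `t` with `|s t - (r s - s x₁)| < ε / 4` for all `s`.
(3) Choose `M` with `v.valuation K (2^M * t) ≤ exp (-N)` and `v.valuation K (2^M) ≤ exp (-N)` for all `v ∈ S`. For a natural number `j` put
`u j = 2^M j / (2^M j + 1) ∈ ℚ`: `v.valuation K (u j) ≤ v.valuation K (2^M)` (for `v ∈ S` the element `2^M j + 1` is a unit at `v` if `M ≥ 1`: `Pr_odd`), so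
`v.valuation K (t * u j) ≤ exp (-N)`; `s (t * u j) = s t * (1 - 1 / (2^M j + 1))`, so `|s (t u j) - s t| ≤ |s t| / (2^M j + 1) < ε / 4` for `j` large
(finitely many `s`: `Finite (K →+* ℝ)`, take `j ≥ 4 (∑ s, |s t|) / ε`). Put `x₂ = x₁ + t * u j`: `v (x₂ - a v) ≤ exp (-N)`, `|s x₂ - r s| < ε / 2`.
(4) If `x₂ ≠ c` take `x = x₂`. Otherwise `x = x₂ + 2^M / (2 k + 1)` with `k` so large that `2^M / (2 k + 1) < ε / 2`; it is `≠ c`, its distance at `v` is
`≤ v.valuation K (2^M) ≤ exp (-N)`.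
-/

set_option autoImplicit false
set_option linter.unusedSectionVars false
open scoped Classical

open WithZero NumberField IsDedekindDomain H38RT

namespace H54PR

variable {K : Type} [Field K] [NumberField K]

private theorem Wb_two (v : HeightOneSpectrum (𝓞 K)) (h : v.valuation K 2 < 1) (k : ℕ) :
    v.valuation K ((2 : K) ^ k) ≤ exp (-(k : ℤ)) := by
  have h0 : v.valuation K 2 ≠ 0 := (Valuation.ne_zero_iff _).2 two_ne_zero
  have h1 : v.valuation K 2 ≤ exp (-1 : ℤ) := by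
    have h2 := exp_log h0
    rw [← h2] at h ⊢
    rw [← exp_zero, exp_lt_exp] at h
    rw [exp_le_exp]
    omega
  induction k with
  | zero => simp
  | succ k ih =>
    rw [pow_succ, map_mul]
    have h3 : (exp (-((k + 1 : ℕ) : ℤ)) : WithZero (Multiplicative ℤ)) =
        exp (-(k : ℤ)) * exp (-1 : ℤ) := by
      rw [← exp_add]
      congr 1
      push_cast
      ring
    rw [h3]
    exact mul_le_mul' ih h1

private theorem Wb_big (v : HeightOneSpectrum (𝓞 K)) (h : v.valuation K 2 < 1) (a : K) (N : ℕ) :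
    ∃ k0 : ℕ, ∀ k ≥ k0, v.valuation K ((2 : K) ^ k * a) ≤ exp (-(N : ℤ)) := by
  by_cases ha : a = 0
  · refine ⟨0, fun k _ => ?_⟩
    rw [ha, mul_zero, map_zero]
    exact zero_le
  · have h0 : v.valuation K a ≠ 0 := (Valuation.ne_zero_iff _).2 ha
    refine ⟨(log (v.valuation K a) + N).toNat, fun k hk => ?_⟩
    have h1 : log (v.valuation K a) + N ≤ k := by
      have h2 := Int.self_le_toNat (log (v.valuation K a) + N)
      omega
    rw [map_mul]
    refine (mul_le_mul' (Wb_two v h k) le_rfl).trans ?_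
    have h2 := exp_log h0
    conv_lhs => rw [← h2]
    rw [← exp_add, exp_le_exp]
    omega

private theorem Wb_unif (S : Finset (HeightOneSpectrum (𝓞 K)))
    (hS : ∀ v ∈ S, v.valuation K 2 < 1) (a : HeightOneSpectrum (𝓞 K) → K) (N : ℕ) :
    ∃ k0 : ℕ, ∀ k ≥ k0, ∀ v ∈ S, v.valuation K ((2 : K) ^ k * a v) ≤ exp (-(N : ℤ)) := by
  have h1 : ∀ v ∈ S, ∃ k0 : ℕ, ∀ k ≥ k0, v.valuation K ((2 : K) ^ k * a v) ≤ exp (-(N : ℤ)) :=
    fun v hv => Wb_big v (hS v hv) (a v) N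
  choose! f hf using h1
  refine ⟨S.sup f, fun k hk v hv => hf v hv k ?_⟩
  exact (Finset.le_sup hv).trans hk

theorem fin_app (S : Finset (HeightOneSpectrum (𝓞 K))) (hS : ∀ v ∈ S, v.valuation K 2 < 1)
    (a : HeightOneSpectrum (𝓞 K) → K) (N : ℕ) :
    ∃ x : K, ∀ v ∈ S, v.valuation K (x - a v) ≤ exp (-(N : ℤ)) := by
  obtain ⟨k, hk⟩ := Wb_unif S hS a 0
  have hk1 : ∀ v ∈ S, v.valuation K ((2 : K) ^ k * a v) ≤ 1 := by
    intro v hv
    have h1 := hk k le_rfl v hv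
    simpa using h1
  have h2k : (2 : K) ^ k ≠ 0 := pow_ne_zero _ two_ne_zero
  have h2v : ∀ v : HeightOneSpectrum (𝓞 K), v.valuation K ((2 : K) ^ k) ≠ 0 :=
    fun v => (Valuation.ne_zero_iff _).2 h2k
  obtain ⟨y, hy⟩ := Pr_app S (fun v => (2 : K) ^ k * a v) hk1
    (fun v => v.valuation K ((2 : K) ^ k) * exp (-(N : ℤ)))
    (fun v _ => mul_ne_zero (h2v v) exp_ne_zero)
  refine ⟨(y : K) / 2 ^ k, fun v hv => ?_⟩
  have h1 := hy v hv
  have h2 : (y : K) - 2 ^ k * a v = 2 ^ k * ((y : K) / 2 ^ k - a v) := by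
    field_simp
  rw [h2, map_mul] at h1
  exact (lt_of_mul_lt_mul_left' h1).le

theorem weak2 (S : Finset (HeightOneSpectrum (𝓞 K))) (hS : ∀ v ∈ S, v.valuation K 2 < 1)
    (a : HeightOneSpectrum (𝓞 K) → K) (N : ℕ) (r : (K →+* ℝ) → ℝ) {ε : ℝ} (hε : 0 < ε)
    (c : K) : ∃ x : K, x ≠ c ∧ (∀ v ∈ S, v.valuation K (x - a v) ≤ exp (-(N : ℤ))) ∧
      ∀ s : K →+* ℝ, |s x - r s| < ε := by
  obtain ⟨x1, hx1⟩ := fin_app S hS a N
  obtain ⟨t, ht⟩ := real_dense K (fun s => r s - s x1) (show (0 : ℝ) < ε / 4 by linarith)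
  obtain ⟨M1, hM1⟩ := Wb_unif S hS (fun _ => t) N
  obtain ⟨M2, hM2⟩ := Wb_unif S hS (fun _ => 1) N
  obtain ⟨M, hMa, hMb, hMc⟩ : ∃ M : ℕ, M1 ≤ M ∧ M2 ≤ M ∧ 1 ≤ M :=
    ⟨max (max M1 M2) 1, (le_max_left _ _).trans (le_max_left _ _),
      (le_max_right _ _).trans (le_max_left _ _), le_max_right _ _⟩
  have hvt : ∀ v ∈ S, v.valuation K ((2 : K) ^ M * t) ≤ exp (-(N : ℤ)) := hM1 M hMa
  have hv1 : ∀ v ∈ S, v.valuation K ((2 : K) ^ M) ≤ exp (-(N : ℤ)) := by
    intro v hv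
    have h1 := hM2 M hMb v hv
    rwa [mul_one] at h1
  have hpow : (1 : ℝ) ≤ (2 : ℝ) ^ M := one_le_pow₀ (by norm_num)
  have hpos : (0 : ℝ) < (2 : ℝ) ^ M := by positivity
  -- the correction
  obtain ⟨j, hj⟩ := exists_nat_gt ((∑ s : K →+* ℝ, |s t|) / (ε / 4))
  have hj0 : (∑ s : K →+* ℝ, |s t|) < (j : ℝ) * (ε / 4) := by
    rwa [div_lt_iff₀ (by linarith)] at hj
  have hn : Odd (2 ^ M * j + 1) := by
    refine Even.add_one ?_
    exact (Even.mul_right ((Nat.even_pow).2 ⟨even_two, by omega⟩) j)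
  have hnK : ((2 ^ M * j + 1 : ℕ) : K) ≠ 0 := by
    rw [Nat.cast_ne_zero]
    omega
  obtain ⟨x2, hx2v, hx2s⟩ : ∃ x2 : K, (∀ v ∈ S, v.valuation K (x2 - a v) ≤ exp (-(N : ℤ))) ∧
      ∀ s : K →+* ℝ, |s x2 - r s| < ε / 2 := by
    refine ⟨x1 + (2 ^ M * t) * (j : K) / ((2 ^ M * j + 1 : ℕ) : K), fun v hv => ?_, fun s => ?_⟩
    · have h1 : x1 + (2 ^ M * t) * (j : K) / ((2 ^ M * j + 1 : ℕ) : K) - a v =
          (x1 - a v) + (2 ^ M * t) * (j : K) / ((2 ^ M * j + 1 : ℕ) : K) := by ring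
      rw [h1]
      refine (Valuation.map_add _ _ _).trans (max_le (hx1 v hv) ?_)
      rw [map_div₀, Pr_odd v (hS v hv) hn, div_one, map_mul]
      exact (mul_le_mul' (hvt v hv) (Pr_nat v j)).trans (by rw [mul_one])
    · have h1 : s (x1 + (2 ^ M * t) * (j : K) / ((2 ^ M * j + 1 : ℕ) : K)) =
          s x1 + s t * (2 ^ M * j / (2 ^ M * j + 1)) := by
        rw [map_add, map_div₀, map_mul, map_mul, map_pow, map_ofNat, map_natCast, map_natCast]
        push_cast
        ring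
      have hjj : (0 : ℝ) ≤ (j : ℝ) := Nat.cast_nonneg j
      have hden : (0 : ℝ) < 2 ^ M * j + 1 := by positivity
      have h2 : s x1 + s t * (2 ^ M * j / (2 ^ M * j + 1)) - r s =
          (s t - (r s - s x1)) + (-(s t) / (2 ^ M * j + 1)) := by
        field_simp
        ring
      have h3 : |-(s t) / (2 ^ M * j + 1)| < ε / 4 := by
        rw [abs_div, abs_neg, abs_of_pos hden, div_lt_iff₀ hden]
        have h4 : |s t| ≤ ∑ s : K →+* ℝ, |s t| :=
          Finset.single_le_sum (f := fun s : K →+* ℝ => |s t|) (fun _ _ => abs_nonneg _)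
            (Finset.mem_univ s)
        have h5 : (j : ℝ) ≤ 2 ^ M * j + 1 := by nlinarith
        have h6 : (j : ℝ) * (ε / 4) ≤ (2 ^ M * j + 1) * (ε / 4) :=
          mul_le_mul_of_nonneg_right h5 (by linarith)
        linarith
      rw [h1, h2]
      refine (abs_add_le _ _).trans_lt ?_
      have h4 := ht s
      linarith
  by_cases hc : x2 = c
  · obtain ⟨k, hk⟩ := exists_nat_gt ((2 : ℝ) ^ M / (ε / 2))
    have hk0 : (2 : ℝ) ^ M < (k : ℝ) * (ε / 2) := by
      rwa [div_lt_iff₀ (by linarith)] at hk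
    have hodd : Odd (2 * k + 1) := ⟨k, rfl⟩
    have hkK : ((2 * k + 1 : ℕ) : K) ≠ 0 := by
      rw [Nat.cast_ne_zero]
      omega
    have hw0 : (2 : K) ^ M / ((2 * k + 1 : ℕ) : K) ≠ 0 :=
      div_ne_zero (pow_ne_zero _ two_ne_zero) hkK
    refine ⟨x2 + (2 : K) ^ M / ((2 * k + 1 : ℕ) : K), ?_, fun v hv => ?_, fun s => ?_⟩
    · intro h1
      apply hw0
      rw [hc] at h1
      exact (add_eq_left).1 h1
    · have h1 : x2 + (2 : K) ^ M / ((2 * k + 1 : ℕ) : K) - a v =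
          (x2 - a v) + (2 : K) ^ M / ((2 * k + 1 : ℕ) : K) := by ring
      rw [h1]
      refine (Valuation.map_add _ _ _).trans (max_le (hx2v v hv) ?_)
      rw [map_div₀, Pr_odd v (hS v hv) hodd, div_one]
      exact hv1 v hv
    · have h1 : s (x2 + (2 : K) ^ M / ((2 * k + 1 : ℕ) : K)) =
          s x2 + (2 : ℝ) ^ M / (2 * k + 1) := by
        rw [map_add, map_div₀, map_pow, map_ofNat, map_natCast]
        push_cast
        rfl
      have hkk : (0 : ℝ) ≤ (k : ℝ) := Nat.cast_nonneg k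
      have hden : (0 : ℝ) < 2 * (k : ℝ) + 1 := by positivity
      have h2 : |(2 : ℝ) ^ M / (2 * k + 1)| < ε / 2 := by
        rw [abs_of_pos (div_pos hpos hden), div_lt_iff₀ hden]
        nlinarith
      rw [h1, show s x2 + (2 : ℝ) ^ M / (2 * k + 1) - r s =
        (s x2 - r s) + (2 : ℝ) ^ M / (2 * k + 1) by ring]
      refine (abs_add_le _ _).trans_lt ?_
      have h4 := hx2s s
      linarith
  · exact ⟨x2, hc, hx2v, fun s => (hx2s s).trans (by linarith)⟩

end H54PR
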