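import Pool.Agent.H76.PP.Ta
import Pool.Agent.H76.PP.E0
import Pool.Agent.H38.T1.Ea

/-!
Definitions for (8.5) of the note of the project MP_78d38b_PP (no row).
-/

set_option autoImplicit false
set_option linter.unusedSectionVars false
open scoped Classical

open WithZero NumberField IsDedekindDomain H38RT H76PP
open H38T1 (SC sc scu rep eo la si Pri OddP tp unif)

namespace H54PR

/-- The element `y` is a square modulo eight at the places above two. -/
def Sq8 (F : Type) [Field F] [NumberField F] (y : F) : Prop :=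
  ∀ v : HeightOneSpectrum (𝓞 F), v.valuation F 2 < 1 → ∃ m : F, m ≠ 0 ∧
    v.valuation F (y * m ^ 2 - 1) ≤ v.valuation F 8

/-- (8.6): reciprocity for the tame symbols. -/
def RecT (F : Type) [Field F] [NumberField F] : Prop :=
  ∀ x y : F, x ≠ 0 → y ≠ 0 → Sq8 F y → (∀ s : F →+* ℝ, 0 < s y) →
    ∑ᶠ v : HeightOneSpectrum (𝓞 F), (if OddP v then tp v (sc x) (sc y) else 0) = 0

/-- (8.4): the projection formula for the tame symbols. -/
def ProjT (K L : Type) [Field K] [NumberField K] [Field L] [NumberField L] [Algebra K L] : Prop :=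
  ∀ v : HeightOneSpectrum (𝓞 K), OddP v → ∀ u : L, u ≠ 0 → ∀ c : K, c ≠ 0 →
    ∑ᶠ w : {w : HeightOneSpectrum (𝓞 L) // dn K w = v},
      tp w.1 (sc u) (sc (algebraMap K L c)) = tp v (sc (Algebra.norm K u)) (sc c)

/-- The value of the cubic polynomial. -/
def ff {F : Type*} [Field F] (a b x : F) : F := x ^ 3 + a * x + b

theorem ff_map {F F' : Type*} [Field F] [Field F'] (s : F →+* F') (a b x : F) :
    s (ff a b x) = ff (s a) (s b) (s x) := by
  unfold ff
  rw [map_add, map_add, map_mul, map_pow]

/-- Multiplication in coordinates. -/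
theorem ev_m3 {K L : Type*} [Field K] [Field L] [Algebra K L] {A B : K} {θ : L}
    (h : θ ^ 3 + algebraMap K L A * θ + algebraMap K L B = 0) (u v : Fin 3 → K) :
    ev θ (m3 A B u v) = ev θ u * ev θ v := by
  unfold ev m3
  simp only [Matrix.cons_val_zero, Matrix.cons_val_one, Matrix.cons_val, map_add, map_sub,
    map_mul]
  linear_combination (-(algebraMap K L (u 1)) * algebraMap K L (v 2) -
    algebraMap K L (u 2) * algebraMap K L (v 1) - algebraMap K L (u 2) * algebraMap K L (v 2) * θ) * h

/-- The coordinates of `x - θ`. -/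
theorem ev_sub {K L : Type*} [Field K] [Field L] [Algebra K L] (θ : L) (x : K) :
    ev θ ![x, -1, 0] = algebraMap K L x - θ := by
  unfold ev
  simp
  ring

/-- `x - θ` divides the value of the cubic polynomial. -/
theorem sub_mul_quad {K L : Type*} [Field K] [Field L] [Algebra K L] {A B : K} {θ : L}
    (h : θ ^ 3 + algebraMap K L A * θ + algebraMap K L B = 0) (x : K) :
    (algebraMap K L x - θ) * (θ ^ 2 + algebraMap K L x * θ + algebraMap K L x ^ 2 +
      algebraMap K L A) = algebraMap K L (ff A B x) := by
  unfold ff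
  rw [map_add, map_add, map_mul, map_pow]
  linear_combination h * (-1)

theorem sub_ne {K L : Type} [Field K] [Field L] [Algebra K L] {A B : K} {θ : L}
    (h : Cub K L A B θ) (x : K) : algebraMap K L x - θ ≠ 0 := by
  intro h0
  have h1 := h.li x (-1) 0 (by
    rw [map_neg, map_one, map_zero]
    linear_combination h0)
  exact absurd h1.2.1 (neg_ne_zero.2 one_ne_zero)

theorem ff_ne {K L : Type} [Field K] [Field L] [Algebra K L] {A B : K} {θ : L}
    (h : Cub K L A B θ) (x : K) : ff A B x ≠ 0 := by
  intro h0
  have h1 := sub_mul_quad h.root x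
  rw [h0, map_zero] at h1
  rcases mul_eq_zero.1 h1 with h2 | h2
  · exact sub_ne h x h2
  · have h3 := h.li (x ^ 2 + A) x 1 (by
      rw [map_add, map_pow, map_one]
      linear_combination h2)
    exact absurd h3.2.2 one_ne_zero

end H54PR
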